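import Pool.Agent.Helper66.ND.Sound
import Pool.Agent.Helper66.ML.Sound
import Pool.Agent.Helper66.IL.Final

/-!
Assembly of the parts of a certificate.
-/

namespace Pool.Agent.Helper66.ND

open Pool.Agent.Helper60.Idg (B cdim cswell)
open Pool.Agent.Helper66.IL
open Pool.Agent.Helper66.ML (VD ED vv code)

theorem ok_node {A : AT} {N : NT} {V : ℕ → ℕ} {k w : ℕ} {X : LT} {c : Ct} {l r : NT}
    (h : ba (Nat.beq (cdr X) k) (chk A N V c (.nd false X w)) = true) (hl : NT.ok A N V l)
    (hr : NT.ok A N V r) : NT.ok A N V (.s k w X c l r) := by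
  rw [and_true] at h
  exact ⟨⟨Nat.eq_of_beq_eq_true h.1, h.2⟩, hl, hr⟩

theorem aok_cons {A : AT} {N : NT} {C n : ℕ} (h : eok A N C n = true) (h' : aok A N C n = true) :
    aok A N C (n + 1) = true := by
  have e : aok A N C (n + 1) = ba (eok A N C n) (aok A N C n) := rfl
  rw [e, and_true]
  exact ⟨h, h'⟩

theorem rs_nil {A : AT} {N : NT} {V : ℕ → ℕ} {n x : ℕ} : RS.okb A N V n .z x = true := rfl

theorem rs_cons {A : AT} {N : NT} {V : ℕ → ℕ} {n x : ℕ} {r : PR} {t : RS}
    (h : rok A N V n x r 0 = true) (ht : RS.okb A N V n t (x + 1) = true) :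
    RS.okb A N V n (.s r t) x = true := by
  have e : RS.okb A N V n (.s r t) x = ba (rok A N V n x r 0) (RS.okb A N V n t (x + 1)) := rfl
  rw [e, and_true]
  exact ⟨h, ht⟩

/-- the number of rows -/
noncomputable def RS.len (r : RS) : ℕ := RS.rec (motive := fun _ => ℕ) 0 (fun _ _ ih => ih + 1) r

/-- the table of plain pieces -/
noncomputable def vt (d : VD) (k : ℕ) : ℕ := vv d 24 k

theorem vt_ok {d : VD} {g : ED} (hd : VD.ok d g d) (hg : ED.ok d g) (b : MB)
    (h : vt d (code b) < 65535) : pg.P 48 72 {(b, .e)} 0 (vt d (code b) : ℤ) :=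
  ML.main hd hg b 24 (vt d (code b)) le_rfl h

theorem upper {A : AT} {N : NT} {d : VD} {g : ED} {C n : ℕ} (hd : VD.ok d g d) (hg : ED.ok d g)
    (ha : aok A N C n = true) (hN : NT.ok A N (vt d) N) {r : RS}
    (hr : RS.okb A N (vt d) n r 0 = true) (hl : r.len = n + 2) :
    cdim ≤ 25 / 48 ∧ cswell ≤ 25 / 48 := by
  have H : Hyp A N (vt d) C n := ⟨AOK_of_aok ha, hN, vt_ok hd hg⟩
  refine consts (D := 1) (t := 72) (C := (C : ℤ)) (by norm_num) (by norm_num) (by positivity) ?_
  intro b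
  have h := final H (fun x hx => ?_) b
  · simpa using h
  · have h1 := rows_ok r 0 hr x (by
      have : r.len = n + 2 := hl
      unfold RS.len at this
      omega)
    rwa [Nat.zero_add] at h1

end Pool.Agent.Helper66.ND
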