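import Pool.Agent.Helper66.ND.Asm

/-!
Assembly of the parts of a certificate, with an arbitrary table of plain pieces.
-/

namespace Pool.Agent.Helper66.ND

open Pool.Agent.Helper60.Idg (B SubcubicTree Idim Iswell cdim cswell)
open Pool.Agent.Helper66.IL
open Pool.Agent.Helper66.ML (code)

theorem upper_P {A : AT} {N : NT} {f : ℕ → ℕ} {C n : ℕ}
    (hf : ∀ b : MB, f (code b) < 65535 → pg.P 48 72 {(b, .e)} 0 (f (code b) : ℤ))
    (ha : aok A N C n = true) (hN : NT.ok A N f N) {r : RS}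
    (hr : RS.okb A N f n r 0 = true) (hl : r.len = n + 2) (b : B) :
    pg.P (48 * 1) 72 {(emb b, .e)} 0 (25 * 1 * b.size + C) := by
  have H : Hyp A N f C n := ⟨AOK_of_aok ha, hN, hf⟩
  have h := final H (fun x hx => ?_) b
  · simpa using h
  · have h1 := rows_ok r 0 hr x (by
      have : r.len = n + 2 := hl
      unfold RS.len at this
      omega)
    rwa [Nat.zero_add] at h1

theorem upper2 {A : AT} {N : NT} {f : ℕ → ℕ} {C n : ℕ}
    (hf : ∀ b : MB, f (code b) < 65535 → pg.P 48 72 {(b, .e)} 0 (f (code b) : ℤ))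
    (ha : aok A N C n = true) (hN : NT.ok A N f N) {r : RS}
    (hr : RS.okb A N f n r 0 = true) (hl : r.len = n + 2) :
    cdim ≤ 25 / 48 ∧ cswell ≤ 25 / 48 :=
  consts (D := 1) (t := 72) (C := (C : ℤ)) (by norm_num) (by norm_num) (by positivity)
    (upper_P hf ha hN hr hl)

/-- the bounds for every subcubic tree, and for the constants -/
theorem upper3 {A : AT} {N : NT} {f : ℕ → ℕ} {C n : ℕ}
    (hf : ∀ b : MB, f (code b) < 65535 → pg.P 48 72 {(b, .e)} 0 (f (code b) : ℤ))
    (ha : aok A N C n = true) (hN : NT.ok A N f N) {r : RS}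
    (hr : RS.okb A N f n r 0 = true) (hl : r.len = n + 2) :
    (∀ (V : Type) [Fintype V] (T : SimpleGraph V), SubcubicTree T →
      (Idim T : ℝ) ≤ 25 / 48 * (Fintype.card V : ℝ) + C / 48 ∧
      (Iswell T : ℝ) ≤ 25 / 48 * (Fintype.card V : ℝ) + (C + 72) / 48) ∧
    cdim ≤ 25 / 48 ∧ cswell ≤ 25 / 48 := by
  refine ⟨fun V _ T hT => ?_, upper2 hf ha hN hr hl⟩
  have h := tree_bound (D := 1) (t := 72) (C := (C : ℤ)) (by norm_num) (by norm_num)
    (upper_P hf ha hN hr hl) hT
  simpa using h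

end Pool.Agent.Helper66.ND
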