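import Pool.Agent.Helper66.ND.Defs
import Pool.Agent.Helper66.ML.Code

/-!
The codes of labelled branches.
-/

namespace Pool.Agent.Helper66.ND

open Pool.Agent.Helper66.IL
open Pool.Agent.Helper66.ML (pc hd mkc mkr code ln ln_eq pc_big ln_pc pc_split lt_step hd_inj
  hd_two code_e code_n mkr_eq code_zero mkc_ne_zero)

/-- words of ordered branches -/
noncomputable def word : MB → ℕ
  | .e => 0
  | .n m x y => pc (hd m) (word x) (word y)

theorem pc_ne (m : Bool) (a b : ℕ) : pc (hd m) a b ≠ 0 := by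
  have h := pc_big m a b 0
  have h2 : 0 < 2 ^ (ln a + ln b + 1 + 0) := by positivity
  intro h3
  rw [h3] at h
  omega

theorem word_pf : ∀ (b b' : MB) (p p' r r' : ℕ), r < 2 ^ p → r' < 2 ^ p' →
    ln (word b) + p = ln (word b') + p' → word b * 2 ^ p + r = word b' * 2 ^ p' + r' →
    b = b' ∧ p = p' ∧ r = r' := by
  have h0 : ln 0 = 1 := by simp [ln_eq]
  intro b
  induction b with
  | e =>
    intro b' p p' r r' hr hr' hl he
    cases b' with
    | e =>
      simp only [word] at hl he
      refine ⟨rfl, by omega, by omega⟩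
    | n m x y =>
      exfalso
      simp only [word] at hl he
      rw [h0, ln_pc] at hl
      have h1 := pc_big m (word x) (word y) p'
      have h2 : p = ln (word x) + ln (word y) + 1 + p' := by omega
      rw [← h2] at h1
      omega
  | n m x y ihx ihy =>
    intro b' p p' r r' hr hr' hl he
    cases b' with
    | e =>
      exfalso
      simp only [word] at hl he
      rw [h0, ln_pc] at hl
      have h1 := pc_big m (word x) (word y) p
      have h2 : p' = ln (word x) + ln (word y) + 1 + p := by omega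
      rw [← h2] at h1
      omega
    | n m' x' y' =>
      simp only [word] at hl he
      obtain ⟨h1, h2, h3⟩ := pc_split hr hr' hl he
      obtain ⟨h4, h5, h6⟩ := ihx x' _ _ _ _ (lt_step hr) (lt_step hr') h2 h3
      obtain ⟨h7, h8, h9⟩ := ihy y' _ _ _ _ hr hr' h5 h6
      exact ⟨by rw [hd_inj h1, h4, h7], h8, h9⟩

theorem word_inj {b b' : MB} (h : word b = word b') : b = b' :=
  (word_pf b b' 0 0 0 0 (by simp) (by simp) (by rw [h]) (by rw [h])).1

/-- being a word -/
def Wd (a : ℕ) : Prop := ∃ b, a = word b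

theorem Wd.zero : Wd 0 := ⟨.e, rfl⟩

theorem Wd.pc {m : Bool} {a b : ℕ} (ha : Wd a) (hb : Wd b) : Wd (pc (hd m) a b) := by
  obtain ⟨x, rfl⟩ := ha
  obtain ⟨y, rfl⟩ := hb
  exact ⟨.n m x y, rfl⟩

theorem pc_w {m m' : Bool} {a b a' b' : ℕ} (ha : Wd a) (hb : Wd b) (ha' : Wd a') (hb' : Wd b')
    (h : pc (hd m) a b = pc (hd m') a' b') : m = m' ∧ a = a' ∧ b = b' := by
  obtain ⟨x, rfl⟩ := ha
  obtain ⟨y, rfl⟩ := hb
  obtain ⟨x', rfl⟩ := ha'
  obtain ⟨y', rfl⟩ := hb'
  have h1 : word (.n m x y) = word (.n m' x' y') := h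
  have h2 := word_inj h1
  injection h2 with h3 h4 h5
  exact ⟨h3, by rw [h4], by rw [h5]⟩

theorem mkc_sorted (m : Bool) (a b : ℕ) : ∃ m' u v, mkc m a b = pc (hd m') u v ∧ v ≤ u ∧
    ((u = a ∧ v = b) ∨ (u = b ∧ v = a)) ∧ (m' = m ∨ (a = 0 ∧ b = 0)) := by
  unfold mkc
  cases h : Nat.ble a b with
  | true =>
    have hab := Nat.le_of_ble_eq_true h
    cases h' : Nat.beq b 0 with
    | true =>
      have hb := Nat.eq_of_beq_eq_true h'
      subst hb
      have ha : a = 0 := by omega
      subst ha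
      exact ⟨false, 0, 0, rfl, le_rfl, Or.inl ⟨rfl, rfl⟩, Or.inr ⟨rfl, rfl⟩⟩
    | false => exact ⟨m, b, a, rfl, hab, Or.inr ⟨rfl, rfl⟩, Or.inl rfl⟩
  | false =>
    refine ⟨m, a, b, rfl, ?_, Or.inl ⟨rfl, rfl⟩, Or.inl rfl⟩
    by_contra hc
    rw [Nat.ble_eq_true_of_le (by omega)] at h
    exact absurd h (by simp)

theorem Wd.mkc {m : Bool} {a b : ℕ} (ha : Wd a) (hb : Wd b) : Wd (mkc m a b) := by
  obtain ⟨m', u, v, h, -, h1 | h1, -⟩ := mkc_sorted m a b
  · rw [h, h1.1, h1.2]; exact Wd.pc ha hb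
  · rw [h, h1.1, h1.2]; exact Wd.pc hb ha

/-- the marker of a label -/
def mwb : ℕ → ℕ → MB
  | 0, k => Nat.rec .e (fun _ ih => .n false ih .e) k
  | i + 1, k => .n (k % 2 == 1) (mwb i (k / 2)) .e

theorem un_word (k : ℕ) : un k = word (mwb 0 k) := by
  induction k with
  | zero => rfl
  | succ k ih =>
    have e1 : un (k + 1) = pc 2 (un k) 0 := rfl
    have e2 : mwb 0 (k + 1) = .n false (mwb 0 k) .e := rfl
    rw [e1, e2, ih]
    rfl

theorem hd_mod (k : ℕ) : 2 + k % 2 = hd (k % 2 == 1) := by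
  rcases Nat.mod_two_eq_zero_or_one k with h | h <;> rw [h] <;> rfl

theorem lw_word (i : ℕ) : ∀ k, lw i k = word (mwb i k) := by
  induction i with
  | zero => intro k; exact un_word k
  | succ i ih =>
    intro k
    have e1 : lw (i + 1) k = pc (2 + k % 2) (lw i (k / 2)) 0 := rfl
    rw [e1, ih, hd_mod]
    rfl

theorem mwb_inj (i : ℕ) : ∀ k k', mwb i k = mwb i k' → k = k' := by
  induction i with
  | zero =>
    intro k
    induction k with
    | zero =>
      intro k' h
      cases k' with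
      | zero => rfl
      | succ k' => exact absurd h (by simp [mwb])
    | succ k ih =>
      intro k' h
      cases k' with
      | zero => exact absurd h (by simp [mwb])
      | succ k' =>
        have e : ∀ k, mwb 0 (k + 1) = .n false (mwb 0 k) .e := fun _ => rfl
        rw [e, e] at h
        injection h with _ h2 _
        rw [ih k' h2]
  | succ i ih =>
    intro k k' h
    have e : ∀ k, mwb (i + 1) k = .n (k % 2 == 1) (mwb i (k / 2)) .e := fun _ => rfl
    rw [e, e] at h
    injection h with h1 h2 _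
    have h3 := ih _ _ h2
    have h4 : k % 2 = k' % 2 := by
      rcases Nat.mod_two_eq_zero_or_one k with h | h <;>
        rcases Nat.mod_two_eq_zero_or_one k' with h' | h' <;> rw [h, h'] at h1 <;>
        simp at h1 <;> omega
    omega

theorem lc_word (k : ℕ) : lc k = word (.n false .e (mwb 7 k)) := by
  have e1 : lc k = pc 2 0 (lw 7 k) := rfl
  rw [e1, lw_word]
  rfl

theorem lw_ne (k : ℕ) : lw 7 k ≠ 0 := by
  have e1 : lw 7 k = pc (2 + k % 2) (lw 6 (k / 2)) 0 := rfl
  rw [e1, hd_mod]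
  exact pc_ne _ _ _

theorem cd_e : cd .e = 0 := rfl
theorem cd_z (k : ℕ) : cd (.z k) = lc k := rfl
theorem cd_n (m : Bool) (x y : LT) : cd (.n m x y) = mkc m (cd x) (cd y) := rfl

theorem cd_wd : ∀ X : LT, Wd (cd X)
  | .e => Wd.zero
  | .z k => ⟨_, lc_word k⟩
  | .n m x y => (cd_wd x).mkc (cd_wd y)

theorem lc_ne (k : ℕ) : lc k ≠ 0 := by
  rw [lc_word]; exact pc_ne _ _ _

theorem cd_zero {X : LT} (h : cd X = 0) : X = .e := by
  cases X with
  | e => rfl
  | z k => exact absurd h (lc_ne k)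
  | n m x y => exact absurd h (mkc_ne_zero _ _ _)

/-- codes of nodes and labels are different -/
theorem lc_mkc (k : ℕ) (m : Bool) (x y : LT) (h : lc k = mkc m (cd x) (cd y)) : False := by
  obtain ⟨m', u, v, h1, h2, h3, -⟩ := mkc_sorted m (cd x) (cd y)
  have hu : Wd u := by rcases h3 with h3 | h3 <;> rw [h3.1] <;> exact cd_wd _
  have hv : Wd v := by rcases h3 with h3 | h3 <;> rw [h3.2] <;> exact cd_wd _
  have e1 : lc k = pc (hd false) 0 (lw 7 k) := rfl
  rw [h1, e1] at h
  obtain ⟨-, h4, h5⟩ := pc_w Wd.zero ⟨_, lw_word 7 k⟩ hu hv h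
  have := lw_ne k
  omega

theorem cd_inj : ∀ {X X' : LT}, cd X = cd X' → Le X X' := by
  intro X
  induction X with
  | e =>
    intro X' h
    rw [cd_zero (h.symm.trans cd_e)]
    exact Le.e
  | z k =>
    intro X' h
    cases X' with
    | e => exact absurd h (lc_ne k)
    | z k' =>
      rw [cd_z, cd_z, lc_word, lc_word] at h
      have h1 := word_inj h
      injection h1 with _ _ h2
      rw [mwb_inj 7 _ _ h2]
      exact Le.z k'
    | n m x y => exact (lc_mkc k m x y h).elim
  | n m x y ihx ihy =>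
    intro X' h
    cases X' with
    | e => exact absurd h (mkc_ne_zero _ _ _)
    | z k => exact (lc_mkc k m x y h.symm).elim
    | n m' x' y' =>
      rw [cd_n, cd_n] at h
      obtain ⟨m1, u, v, h1, h2, h3, h4⟩ := mkc_sorted m (cd x) (cd y)
      obtain ⟨m2, u', v', h1', h2', h3', h4'⟩ := mkc_sorted m' (cd x') (cd y')
      have hu : Wd u := by rcases h3 with h3 | h3 <;> rw [h3.1] <;> exact cd_wd _
      have hv : Wd v := by rcases h3 with h3 | h3 <;> rw [h3.2] <;> exact cd_wd _
      have hu' : Wd u' := by rcases h3' with h3 | h3 <;> rw [h3.1] <;> exact cd_wd _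
      have hv' : Wd v' := by rcases h3' with h3 | h3 <;> rw [h3.2] <;> exact cd_wd _
      rw [h1, h1'] at h
      obtain ⟨e1, e2, e3⟩ := pc_w hu hv hu' hv' h
      -- leaves
      have lf : cd x = 0 → cd y = 0 → cd x' = 0 → cd y' = 0 →
          Le (.n m x y) (.n m' x' y') := by
        intro a b c d
        rw [cd_zero a, cd_zero b, cd_zero c, cd_zero d]
        exact Le.lf m m'
      have fin : (cd x = cd x' ∧ cd y = cd y') ∨ (cd x = cd y' ∧ cd y = cd x') := by
        rcases h3 with h3 | h3 <;> rcases h3' with h3' | h3'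
        · left; exact ⟨by rw [← h3.1, e2, h3'.1], by rw [← h3.2, e3, h3'.2]⟩
        · right; exact ⟨by rw [← h3.1, e2, h3'.1], by rw [← h3.2, e3, h3'.2]⟩
        · right; exact ⟨by rw [← h3.2, e3, h3'.2], by rw [← h3.1, e2, h3'.1]⟩
        · left; exact ⟨by rw [← h3.2, e3, h3'.2], by rw [← h3.1, e2, h3'.1]⟩
      have hm : m = m' ∨ ((cd x = 0 ∧ cd y = 0) ∧ (cd x' = 0 ∧ cd y' = 0)) := by
        rcases h4 with h4 | h4
        · rcases h4' with h4' | h4'
          · left; rw [← h4, e1, h4']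
          · right
            refine ⟨?_, h4'⟩
            rcases fin with h | h
            · exact ⟨by rw [h.1, h4'.1], by rw [h.2, h4'.2]⟩
            · exact ⟨by rw [h.1, h4'.2], by rw [h.2, h4'.1]⟩
        · right
          refine ⟨h4, ?_⟩
          rcases fin with h | h
          · exact ⟨by rw [← h.1, h4.1], by rw [← h.2, h4.2]⟩
          · exact ⟨by rw [← h.2, h4.2], by rw [← h.1, h4.1]⟩
      rcases hm with rfl | ⟨⟨a, b⟩, c, d⟩
      · rcases fin with h | h
        · exact Le.n id (ihx h.1) (ihy h.2)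
        · exact Le.s id (ihx h.1) (ihy h.2)
      · exact lf a b c d

theorem Le.z_inv {k : ℕ} {X : LT} (h : Le (.z k) X) : X = .z k := by
  cases h; rfl

theorem cdr_eq (X : LT) : cdr X = cd (rt X) := by
  cases X <;> rfl

theorem cdr_inj {X X' : LT} (h : cdr X = cdr X') : Le (rt X) (rt X') := by
  rw [cdr_eq, cdr_eq] at h
  exact cd_inj h

theorem cdr_z {k : ℕ} {X : LT} (h : cdr X = lc k) : X = .z k := by
  have h1 : Le (.z k) (rt X) := cdr_inj (X := .z k) h.symm
  have h2 := h1.z_inv
  cases X with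
  | e => exact h2
  | z j => exact h2
  | n m x y => exact absurd h2 (by simp [rt])

theorem oM_eq : ∀ p : MB, oM p = ofMB p
  | .e => rfl
  | .n m x y => by
    have e : oM (.n m x y) = .n m (oM x) (oM y) := rfl
    rw [e, oM_eq x, oM_eq y]; rfl

theorem cd_of : ∀ p : MB, cd (ofMB p) = code p
  | .e => rfl
  | .n m x y => by rw [ofMB, cd_n, cd_of x, cd_of y, code_n]

theorem and_true {a b : Bool} : ba a b = true ↔ a = true ∧ b = true := by
  cases a <;> cases b <;> simp [ba]

theorem or_true {a b : Bool} : bo a b = true ↔ a = true ∨ b = true := by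
  cases a <;> cases b <;> simp [bo]

theorem pl_of : ∀ {X : LT}, pl X = true → ∃ p, X = ofMB p ∧ p.size = lsz X
  | .e, _ => ⟨.e, rfl, rfl⟩
  | .z _, h => by simp [pl] at h
  | .n m x y, h => by
    have e : pl (.n m x y) = ba (pl x) (pl y) := rfl
    rw [e, and_true] at h
    obtain ⟨p, rfl, hp⟩ := pl_of h.1
    obtain ⟨q, rfl, hq⟩ := pl_of h.2
    refine ⟨.n m p q, rfl, ?_⟩
    have e : lsz (.n m (ofMB p) (ofMB q)) = (lsz (ofMB p) + lsz (ofMB q)) + 1 := rfl
    rw [e, ← hp, ← hq]; rfl

theorem plg_eq : ∀ (C : Cx) (X : LT), plg C X = plug C X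
  | .top, X => rfl
  | .l m y C, X => by
    have e : plg (.l m y C) X = plg C (.n m X y) := rfl
    rw [e, plg_eq C]; rfl
  | .r m y C, X => by
    have e : plg (.r m y C) X = plg C (.n m y X) := rfl
    rw [e, plg_eq C]; rfl

theorem att_sound (X : LT) : ∀ (p : ℕ) (C : Cx) (k : Cx → LT → Bool), att X p C k = true →
    ∃ C' Y, plug C X = plug C' Y ∧ k C' Y = true := by
  induction X with
  | e => intro p C k h; exact ⟨C, .e, rfl, h⟩
  | z j => intro p C k h; exact ⟨C, .z j, rfl, h⟩
  | n m x y ihx ihy =>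
    intro p C k h
    have e : att (.n m x y) p C k = Bool.rec
      (Bool.rec (att y (p / 2) (.r m x C) k) (att x (p / 2) (.l m y C) k)
        (Nat.beq (p % 2) 0)) (k C (.n m x y)) (Nat.ble p 1) := rfl
    rw [e] at h
    cases h1 : Nat.ble p 1 with
    | true =>
      rw [h1] at h
      exact ⟨C, _, rfl, h⟩
    | false =>
      rw [h1] at h
      cases h2 : Nat.beq (p % 2) 0 with
      | true =>
        rw [h2] at h
        exact ihx _ (.l m y C) k h
      | false =>
        rw [h2] at h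
        exact ihy _ (.r m x C) k h

end Pool.Agent.Helper66.ND
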