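import Pool.Agent.Helper66.ND.Theory
import Pool.Agent.Helper66.ML.Defs

/-!
The data of the node system and the checker. Integers are stored as natural numbers with the
bias `BI`. Codes of branches: 0 is empty, 1 is cut off, `k + 2` is the state `k`.
-/

namespace Pool.Agent.Helper66.ND

open Pool.Agent.Helper66.IL
open Pool.Agent.Helper66.ML (pc hd mkc mkr code)

/-- the bias -/
def BI : Nat := 4096

/-- no bound -/
def IN : Nat := 1048576

/-- uniform terminations of a label: code, cost (bias `BI`), branch -/
inductive TT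
  | z
  | s (k w : Nat) (p : MB) (l r : TT)

/-- pairs of codes -/
inductive TP
  | z
  | s (x y : Nat) (t : TP)

/-- alternatives: branch and cost (bias `4 * BI`) -/
inductive PA
  | z
  | s (p : MB) (w : Nat) (t : PA)

/-- partitions of the transitions -/
inductive PT
  | z
  | s (a : PA) (h : TP) (t : PT)

/-- the data of a label: offset, value of the cut (bias `BI`), transitions, terminations,
partitions -/
inductive AE
  | s (off cv : Nat) (pre : TP) (ts : TT) (ps : PT)

/-- a table of labels -/
inductive AT
  | z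
  | s (e : AE) (l r : AT)

/-- certificates: `r` node table or end of list, `v` table of plain pieces, `c` cut (position,
limit of the lower part), `t` termination, `u` unfolding (position, partition), `k` list -/
inductive Ct
  | r
  | v
  | c (p w : Nat) (a b : Ct)
  | t (p i : Nat) (a : Ct)
  | u (p j : Nat) (a : Ct)
  | k (a b : Ct)

/-- the node table: code, limit (bias `BI`), piece, certificate -/
inductive NT
  | z
  | s (k w : Nat) (X : LT) (c : Ct) (l r : NT)

/-- what has to be proved -/
inductive Rq
  | nd (f : Bool) (X : LT) (L : Nat)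
  | ls (C : Cx) (L : Nat) (a : PA) (h : TP)

noncomputable def ba (a b : Bool) : Bool := Bool.rec false b a

noncomputable def bo (a b : Bool) : Bool := Bool.rec b true a

noncomputable def un (k : Nat) : Nat := Nat.rec 0 (fun _ ih => pc 2 ih 0) k

noncomputable def lw (i : Nat) : Nat → Nat :=
  Nat.rec (motive := fun _ => Nat → Nat) (fun k => un k)
    (fun _ ih k => pc (Nat.add 2 (Nat.mod k 2)) (ih (Nat.div k 2)) 0) i

/-- the code of a label -/
noncomputable def lc (k : Nat) : Nat := pc 2 0 (lw 7 k)

/-- the code of a labelled branch -/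
noncomputable def cd (X : LT) : Nat :=
  LT.rec (motive := fun _ => Nat) 0 (fun k => lc k) (fun m _ _ cx cy => mkc m cx cy) X

/-- the code of the piece with marked root -/
noncomputable def cdr (X : LT) : Nat :=
  LT.rec (motive := fun _ => Nat) 0 (fun k => lc k) (fun _ x y _ _ => mkc true (cd x) (cd y)) X

/-- the code of the plain piece with marked root -/
noncomputable def rc (X : LT) : Nat :=
  LT.rec (motive := fun _ => Nat) 0 (fun _ => 1) (fun _ x y _ _ => mkr true (cd x) (cd y)) X

noncomputable def lsz (X : LT) : Nat :=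
  LT.rec (motive := fun _ => Nat) 0 (fun _ => 0) (fun _ _ _ a b => Nat.succ (Nat.add a b)) X

/-- no labels -/
noncomputable def pl (X : LT) : Bool :=
  LT.rec (motive := fun _ => Bool) true (fun _ => false) (fun _ _ _ a b => ba a b) X

noncomputable def oM (p : MB) : LT :=
  MB.rec (motive := fun _ => LT) .e (fun m _ _ a b => .n m a b) p

noncomputable def plg (C : Cx) : LT → LT :=
  Cx.rec (motive := fun _ => LT → LT) (fun X => X) (fun m y _ ih X => ih (.n m X y))
    (fun m x _ ih X => ih (.n m x X)) C

/-- the subtree at a position -/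
noncomputable def att (X : LT) : Nat → Cx → (Cx → LT → Bool) → Bool :=
  LT.rec (motive := fun _ => Nat → Cx → (Cx → LT → Bool) → Bool)
    (fun _ C k => k C .e) (fun j _ C k => k C (.z j))
    (fun m x y ihx ihy p C k => Bool.rec
      (Bool.rec (ihy (Nat.div p 2) (.r m x C) k) (ihx (Nat.div p 2) (.l m y C) k)
        (Nat.beq (Nat.mod p 2) 0))
      (k C (.n m x y)) (Nat.ble p 1)) X

noncomputable def TT.look (c : Nat) (t : TT) : Nat :=
  TT.rec (motive := fun _ => Nat) IN
    (fun k w _ _ _ ihl ihr => Bool.rec (Bool.rec ihr ihl (Nat.ble c k)) w (Nat.beq c k)) t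

noncomputable def TT.at (t : TT) : Nat → (MB → Nat → Bool) → Bool :=
  TT.rec (motive := fun _ => Nat → (MB → Nat → Bool) → Bool) (fun _ _ => false)
    (fun _ w p _ _ ihl ihr i k => Bool.rec
      (Bool.rec (ihr (Nat.div i 2) k) (ihl (Nat.div i 2) k) (Nat.beq (Nat.mod i 2) 0))
      (k p w) (Nat.ble i 1)) t

noncomputable def TP.mem (x y : Nat) (t : TP) : Bool :=
  TP.rec (motive := fun _ => Bool) false
    (fun x' y' _ ih => bo (ba (Nat.beq x x') (Nat.beq y y')) ih) t

noncomputable def TP.all (f : Nat → Nat → Bool) (t : TP) : Bool :=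
  TP.rec (motive := fun _ => Bool) true (fun x y _ ih => ba (f x y) ih) t

noncomputable def PT.at (t : PT) : Nat → (PA → TP → Bool) → Bool :=
  PT.rec (motive := fun _ => Nat → (PA → TP → Bool) → Bool) (fun _ _ => false)
    (fun a h _ ih i k => Nat.rec (k a h) (fun j _ => ih j k) i) t

noncomputable def AE.off (e : AE) : Nat := AE.rec (fun o _ _ _ _ => o) e
noncomputable def AE.cv (e : AE) : Nat := AE.rec (fun _ c _ _ _ => c) e
noncomputable def AE.pre (e : AE) : TP := AE.rec (fun _ _ p _ _ => p) e
noncomputable def AE.ts (e : AE) : TT := AE.rec (fun _ _ _ t _ => t) e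
noncomputable def AE.ps (e : AE) : PT := AE.rec (fun _ _ _ _ p => p) e

def AE0 : AE := .s 0 0 .z .z .z

noncomputable def AT.get (t : AT) : Nat → AE :=
  AT.rec (motive := fun _ => Nat → AE) (fun _ => AE0)
    (fun e _ _ ihl ihr i => Bool.rec
      (Bool.rec (ihr (Nat.sub (Nat.div i 2) 1)) (ihl (Nat.div i 2)) (Nat.beq (Nat.mod i 2) 1))
      e (Nat.beq i 0)) t

noncomputable def NT.look (c : Nat) (t : NT) : Nat :=
  NT.rec (motive := fun _ => Nat) IN
    (fun k w _ _ _ _ ihl ihr => Bool.rec (Bool.rec ihr ihl (Nat.ble c k)) w (Nat.beq c k)) t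

/-- the offset of a code (bias `BI`) -/
noncomputable def ob (A : AT) (x : Nat) : Nat :=
  Nat.rec BI (fun x' _ => Nat.rec (Nat.sub BI 2) (fun k _ => (A.get k).off) x') x

/-- the labelled branch of a code -/
noncomputable def lo (x : Nat) : LT :=
  Nat.rec .e (fun x' _ => Nat.rec .e (fun k _ => .z k) x') x

/-- the child of an unfolding -/
noncomputable def chn (x y : Nat) : LT := .n (bo (Nat.beq x 1) (Nat.beq y 1)) (lo x) (lo y)

/-- the cost of cutting off the code (bias `2 * BI`) -/
noncomputable def cc (A : AT) (x : Nat) : Nat :=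
  Nat.rec (Nat.add BI BI) (fun x' _ => Nat.rec (Nat.sub (Nat.add BI BI) 2)
    (fun k _ => Nat.add (A.get k).cv (A.get k).off) x') x

/-- the cost of terminating the code to a branch with code `q > 0` (bias `2 * BI`) -/
noncomputable def tc (A : AT) (x q : Nat) : Nat :=
  Nat.rec IN (fun x' _ => Nat.rec IN
    (fun k _ => Nat.add (TT.look q (A.get k).ts) (A.get k).off) x') x

/-- the cost of a code and a branch (bias `2 * BI`) -/
noncomputable def xc (A : AT) (x : Nat) (q : Nat) : Nat :=
  Bool.rec (tc A x q) (cc A x) (Nat.beq q 0)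

/-- is the mark not needed? -/
noncomputable def um (x : Nat) (q : Nat) : Bool :=
  Bool.rec true (Nat.beq x 0) (Nat.beq q 0)

/-- matching of the children with two branches with codes `a`, `b` (bound with bias `4 * BI`) -/
noncomputable def mt1 (A : AT) (m : Bool) (x y a b W : Nat) : Bool :=
  ba (bo m (bo (ba (Nat.beq a 0) (Nat.beq b 0)) (ba (um x a) (um y b))))
    (ba (Nat.ble (Nat.add (xc A x a) (xc A y b)) W)
      (Nat.ble (Nat.add (xc A x a) (xc A y b)) 1048575))

noncomputable def mt (A : AT) (x y : Nat) (p : MB) (W : Nat) : Bool :=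
  MB.rec (motive := fun _ => Bool) false
    (fun m p1 p2 _ _ => bo (mt1 A m x y (code p1) (code p2) W) (mt1 A m x y (code p2) (code p1) W))
    p

/-- the checker of certificates -/
noncomputable def chk (A : AT) (N : NT) (V : Nat → Nat) (c : Ct) : Rq → Bool :=
  Ct.rec (motive := fun _ => Rq → Bool)
    (fun q => Rq.rec (fun f X L => ba f (ba (Nat.ble (NT.look (cdr X) N) L)
        (Nat.ble (NT.look (cdr X) N) 1048575)))
      (fun _ _ a h => PA.rec (TP.rec true (fun _ _ _ _ => false) h) (fun _ _ _ _ => false) a) q)
    (fun q => Rq.rec (fun _ X L => ba (pl X) (ba (Nat.ble (V (rc X)) 65534)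
        (Nat.ble (Nat.add (V (rc X)) BI) (Nat.add (Nat.mul 25 (lsz X)) L))))
      (fun _ _ _ _ => false) q)
    (fun p w _ _ iha ihb q => Rq.rec
      (fun _ X L => ba (Nat.ble w (Nat.add L BI)) (att X p .top (fun C Y =>
        ba (LT.rec false (fun _ => true) (fun _ _ _ _ _ => true) Y)
          (Cx.rec false
            (fun _ y C' _ => ba (iha (.nd true Y w))
              (ihb (.nd true (plg C' (.n true .e y)) (Nat.sub (Nat.add L BI) w))))
            (fun _ x C' _ => ba (iha (.nd true Y w))
              (ihb (.nd true (plg C' (.n true x .e)) (Nat.sub (Nat.add L BI) w)))) C))))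
      (fun _ _ _ _ => false) q)
    (fun p i _ iha q => Rq.rec
      (fun _ X L => att X p .top (fun C Y => LT.rec false
        (fun k => TT.at (A.get k).ts i (fun b w => ba (Nat.ble w (Nat.add L BI))
          (iha (.nd true (plg C (oM b)) (Nat.sub (Nat.add L BI) w)))))
        (fun _ _ _ _ _ => false) Y))
      (fun _ _ _ _ => false) q)
    (fun p j _ iha q => Rq.rec
      (fun _ X L => att X p .top (fun C Y => LT.rec false
        (fun k => PT.at (A.get k).ps j (fun a h => iha (.ls C (Nat.add L (A.get k).off) a h)))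
        (fun _ _ _ _ _ => false) Y))
      (fun _ _ _ _ => false) q)
    (fun _ _ iha ihb q => Rq.rec (fun _ _ _ => false)
      (fun C L a h => PA.rec
        (TP.rec false (fun x y t _ =>
          ba (Nat.ble (Nat.add (ob A x) (ob A y)) (Nat.add L BI))
            (ba (iha (.nd true (plg C (chn x y)) (Nat.sub (Nat.add L BI)
                (Nat.add (ob A x) (ob A y)))))
              (ihb (.ls C L .z t)))) h)
        (fun b w t _ => ba (Nat.ble w (Nat.add L (Nat.mul 3 BI)))
          (ba (iha (.nd true (plg C (oM b)) (Nat.sub (Nat.add L (Nat.mul 3 BI)) w)))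
            (ihb (.ls C L t h)))) a) q)
    c

/-- the check of a part of the node table -/
noncomputable def NT.okb (A : AT) (N : NT) (V : Nat → Nat) (t : NT) : Bool :=
  NT.rec (motive := fun _ => Bool) true
    (fun k w X c _ _ ihl ihr => ba (ba (Nat.beq (cdr X) k) (chk A N V c (.nd false X w)))
      (ba ihl ihr)) t

/-- the check of the terminations of a label -/
noncomputable def TT.okb (A : AT) (off : Nat) (pre : TP) (t : TT) : Bool :=
  TT.rec (motive := fun _ => Bool) true
    (fun k w p _ _ ihl ihr => ba (ba (ba (Nat.beq (code p) k) (Nat.ble 1 k))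
      (TP.all (fun x y => mt A x y p (Nat.add (Nat.add w off) (Nat.mul 2 BI))) pre))
      (ba ihl ihr)) t

/-- some alternative is possible -/
noncomputable def PA.any (A : AT) (x y : Nat) (a : PA) : Bool :=
  PA.rec (motive := fun _ => Bool) false (fun p w _ ih => bo (mt A x y p w) ih) a

/-- the check of the partitions of a label -/
noncomputable def PT.okb (A : AT) (pre : TP) (t : PT) : Bool :=
  PT.rec (motive := fun _ => Bool) true
    (fun a h _ ih => ba (TP.all (fun x y => bo (TP.mem x y h) (PA.any A x y a)) pre) ih) t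

/-- the check of a label; `C` is the constant of the final bound -/
noncomputable def eok (A : AT) (N : NT) (C k : Nat) : Bool :=
  ba (ba (ba (Nat.ble (NT.look (lc k) N) (A.get k).cv) (Nat.ble (NT.look (lc k) N) 1048575))
    (Nat.ble (Nat.add (A.get k).cv (A.get k).off) (Nat.add C (Nat.mul 2 BI))))
    (ba (TT.okb A (A.get k).off (A.get k).pre (A.get k).ts) (PT.okb A (A.get k).pre (A.get k).ps))

noncomputable def aok (A : AT) (N : NT) (C n : Nat) : Bool :=
  Nat.rec (motive := fun _ => Bool) true (fun k ih => ba (eok A N C k) ih) n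

/-- a row of the table of pairs: `t` transition to the state `k`, `c` cut with a certificate -/
inductive PR
  | z
  | t (k : Nat) (r : PR)
  | c (c : Ct) (r : PR)

/-- the check of a row -/
noncomputable def rok (A : AT) (N : NT) (V : Nat → Nat) (n x : Nat) (r : PR) : Nat → Bool :=
  PR.rec (motive := fun _ => Nat → Bool) (fun y => Nat.blt x y)
    (fun k _ ih y => ba (ba (Nat.blt k n) (TP.mem x y (A.get k).pre)) (ih (Nat.succ y)))
    (fun c _ ih y => ba (ba (Nat.ble (Nat.add (ob A x) (ob A y)) (Nat.sub (Nat.mul 3 BI) 2))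
      (chk A N V c (.nd true (chn x y) (Nat.sub (Nat.sub (Nat.mul 3 BI) 2)
        (Nat.add (ob A x) (ob A y)))))) (ih (Nat.succ y))) r

/-- rows -/
inductive RS
  | z
  | s (r : PR) (t : RS)

noncomputable def RS.okb (A : AT) (N : NT) (V : Nat → Nat) (n : Nat) (r : RS) : Nat → Bool :=
  RS.rec (motive := fun _ => Nat → Bool) (fun _ => true)
    (fun r _ ih x => ba (rok A N V n x r 0) (ih (Nat.succ x))) r

end Pool.Agent.Helper66.ND
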