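import Pool.Agent.Helper66.ND.Code

/-!
Soundness of the checker of the node system.
-/

namespace Pool.Agent.Helper66.ND

open Pool.Agent.Helper60.Idg (B)
open Pool.Agent.Helper66.IL
open Pool.Agent.Helper66.ML (pc hd mkc mkr code code_e code_n mkr_eq code_zero mkc_ne_zero)

def ofCd : Cd → ℕ
  | .e => 0
  | .cut => 1
  | .z k => k + 2

def Rn (n : ℕ) : Cd → Prop
  | .z k => k < n
  | _ => True

open Classical in
/-- the automaton of the data -/
noncomputable def au (A : AT) (n : ℕ) : Aut where
  tr x y := if h : (∃ k, k < n ∧ TP.mem (ofCd x) (ofCd y) (A.get k).pre = true) ∧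
    Rn n x ∧ Rn n y then .z h.1.choose else .cut
  off k := ((A.get k).off : ℤ) - 4096
  kap := 2

theorem au_tr {A : AT} {n : ℕ} {x y : Cd} {k : ℕ} (h : (au A n).tr x y = .z k) :
    k < n ∧ TP.mem (ofCd x) (ofCd y) (A.get k).pre = true ∧ Rn n x ∧ Rn n y := by
  classical
  unfold au at h
  simp only at h
  split_ifs at h with h1
  have h2 := h1.1.choose_spec
  injection h with h3
  rw [h3] at h2
  exact ⟨h2.1, h2.2, h1.2.1, h1.2.2⟩

theorem au_tr' {A : AT} {n : ℕ} {x y : Cd} {k : ℕ} (hk : k < n)
    (h : TP.mem (ofCd x) (ofCd y) (A.get k).pre = true) (hx : Rn n x) (hy : Rn n y) :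
    ∃ k', (au A n).tr x y = .z k' ∧ k' < n := by
  classical
  have h1 : (∃ k, k < n ∧ TP.mem (ofCd x) (ofCd y) (A.get k).pre = true) ∧ Rn n x ∧ Rn n y :=
    ⟨⟨k, hk, h⟩, hx, hy⟩
  refine ⟨h1.1.choose, ?_, h1.1.choose_spec.1⟩
  unfold au
  simp only
  rw [dif_pos h1]

/-- membership in the tables -/
inductive TT.Mem (w : ℕ) (p : MB) : TT → Prop
  | h {k : ℕ} {l r : TT} : TT.Mem w p (.s k w p l r)
  | l {k w' : ℕ} {p' : MB} {l r : TT} : TT.Mem w p l → TT.Mem w p (.s k w' p' l r)
  | r {k w' : ℕ} {p' : MB} {l r : TT} : TT.Mem w p r → TT.Mem w p (.s k w' p' l r)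

inductive NT.Mem (X : LT) (w : ℕ) (c : Ct) : NT → Prop
  | h {k : ℕ} {l r : NT} : NT.Mem X w c (.s k w X c l r)
  | l {k w' : ℕ} {X' : LT} {c' : Ct} {l r : NT} : NT.Mem X w c l → NT.Mem X w c (.s k w' X' c' l r)
  | r {k w' : ℕ} {X' : LT} {c' : Ct} {l r : NT} : NT.Mem X w c r → NT.Mem X w c (.s k w' X' c' l r)

inductive PA.Mem (p : MB) (w : ℕ) : PA → Prop
  | h {t : PA} : PA.Mem p w (.s p w t)
  | t {p' : MB} {w' : ℕ} {t : PA} : PA.Mem p w t → PA.Mem p w (.s p' w' t)

/-- the nodes -/
def SN (N : NT) (X : LT) (L : ℤ) : Prop := ∃ w c, NT.Mem X w c N ∧ L = (w : ℤ) - 4096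

/-- the uniform terminations -/
def TN (A : AT) (k : ℕ) (q : MB) (v : ℤ) : Prop :=
  q ≠ .e ∧ ∃ w p, TT.Mem w p (A.get k).ts ∧ code p = code q ∧ v = (w : ℤ) - 4096

/-- the plain pieces -/
def VN (p : MB) (L : ℤ) : Prop := pg.P 48 72 {(MB.mk p, .e)} 0 (25 * p.size + L)

/-- the node table is correct -/
def NT.ok (A : AT) (N : NT) (V : ℕ → ℕ) : NT → Prop
  | .z => True
  | .s k w X c l r => (cdr X = k ∧ chk A N V c (.nd false X w) = true) ∧ NT.ok A N V l ∧
      NT.ok A N V r

theorem NT.ok_of_okb {A : AT} {N : NT} {V : ℕ → ℕ} : ∀ {t : NT}, NT.okb A N V t = true →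
    NT.ok A N V t
  | .z, _ => trivial
  | .s k w X c l r, h => by
    have e : NT.okb A N V (.s k w X c l r) = ba (ba (Nat.beq (cdr X) k)
      (chk A N V c (.nd false X w))) (ba (NT.okb A N V l) (NT.okb A N V r)) := rfl
    rw [e] at h
    simp only [and_true] at h
    exact ⟨⟨Nat.eq_of_beq_eq_true h.1.1, h.1.2⟩, NT.ok_of_okb h.2.1, NT.ok_of_okb h.2.2⟩

theorem NT.ok_mem {A : AT} {N : NT} {V : ℕ → ℕ} {t : NT} {X : LT} {w : ℕ} {c : Ct}
    (hm : NT.Mem X w c t) (h : NT.ok A N V t) : chk A N V c (.nd false X w) = true := by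
  induction hm with
  | h => exact h.1.2
  | l _ ih => exact ih h.2.1
  | r _ ih => exact ih h.2.2

theorem NT.look_mem {A : AT} {N : NT} {V : ℕ → ℕ} (q : ℕ) : ∀ {t : NT}, NT.ok A N V t →
    NT.look q t < 1048576 → ∃ X c, NT.Mem X (NT.look q t) c t ∧ cdr X = q
  | .z, _, h => absurd h (lt_irrefl _)
  | .s k w X c l r, hk, h => by
    have e : NT.look q (.s k w X c l r) = Bool.rec (Bool.rec (NT.look q r) (NT.look q l)
      (Nat.ble q k)) w (Nat.beq q k) := rfl
    rw [e] at h ⊢
    cases h1 : Nat.beq q k with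
    | true =>
      exact ⟨X, c, NT.Mem.h, hk.1.1.trans (Nat.eq_of_beq_eq_true h1).symm⟩
    | false =>
      rw [h1] at h
      cases h2 : Nat.ble q k with
      | true =>
        rw [h2] at h
        obtain ⟨X', c', h3, h4⟩ := NT.look_mem q hk.2.1 h
        exact ⟨X', c', NT.Mem.l h3, h4⟩
      | false =>
        rw [h2] at h
        obtain ⟨X', c', h3, h4⟩ := NT.look_mem q hk.2.2 h
        exact ⟨X', c', NT.Mem.r h3, h4⟩

theorem TT.look_mem {A : AT} {off : ℕ} {pre : TP} (q : ℕ) : ∀ {t : TT},
    TT.okb A off pre t = true → TT.look q t < 1048576 →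
    ∃ p, TT.Mem (TT.look q t) p t ∧ code p = q
  | .z, _, h => absurd h (lt_irrefl _)
  | .s k w p l r, hk, h => by
    have e : TT.look q (.s k w p l r) = Bool.rec (Bool.rec (TT.look q r) (TT.look q l)
      (Nat.ble q k)) w (Nat.beq q k) := rfl
    have e' : TT.okb A off pre (.s k w p l r) = ba (ba (ba (Nat.beq (code p) k) (Nat.ble 1 k))
      (TP.all (fun x y => mt A x y p (Nat.add (Nat.add w off) (Nat.mul 2 BI))) pre))
      (ba (TT.okb A off pre l) (TT.okb A off pre r)) := rfl
    rw [e'] at hk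
    simp only [and_true] at hk
    rw [e] at h ⊢
    cases h1 : Nat.beq q k with
    | true =>
      exact ⟨p, TT.Mem.h, (Nat.eq_of_beq_eq_true hk.1.1.1).trans (Nat.eq_of_beq_eq_true h1).symm⟩
    | false =>
      rw [h1] at h
      cases h2 : Nat.ble q k with
      | true =>
        rw [h2] at h
        obtain ⟨X', h3, h4⟩ := TT.look_mem q hk.2.1 h
        exact ⟨X', TT.Mem.l h3, h4⟩
      | false =>
        rw [h2] at h
        obtain ⟨X', h3, h4⟩ := TT.look_mem q hk.2.2 h
        exact ⟨X', TT.Mem.r h3, h4⟩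

theorem TP.all_mem {f : ℕ → ℕ → Bool} : ∀ {t : TP}, TP.all f t = true → ∀ {x y : ℕ},
    TP.mem x y t = true → f x y = true
  | .z, _, x, y, h => by simp [TP.mem] at h
  | .s x' y' t, h, x, y, hm => by
    have e : TP.all f (.s x' y' t) = ba (f x' y') (TP.all f t) := rfl
    have e' : TP.mem x y (.s x' y' t) = bo (ba (Nat.beq x x') (Nat.beq y y')) (TP.mem x y t) := rfl
    rw [e, and_true] at h
    rw [e', or_true, and_true] at hm
    rcases hm with ⟨h1, h2⟩ | h1
    · rw [Nat.eq_of_beq_eq_true h1, Nat.eq_of_beq_eq_true h2]; exact h.1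
    · exact TP.all_mem h.2 h1

/-- entries of the table of terminations -/
theorem TT.ok_mem {A : AT} {off : ℕ} {pre : TP} {t : TT} {w : ℕ} {p : MB} (hm : TT.Mem w p t)
    (h : TT.okb A off pre t = true) : code p ≠ 0 ∧
    TP.all (fun x y => mt A x y p (w + off + 2 * 4096)) pre = true := by
  induction hm with
  | @h k l r =>
    have e' : TT.okb A off pre (.s k w p l r) = ba (ba (ba (Nat.beq (code p) k) (Nat.ble 1 k))
      (TP.all (fun x y => mt A x y p (Nat.add (Nat.add w off) (Nat.mul 2 BI))) pre))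
      (ba (TT.okb A off pre l) (TT.okb A off pre r)) := rfl
    rw [e'] at h
    simp only [and_true] at h
    refine ⟨?_, h.1.2⟩
    rw [Nat.eq_of_beq_eq_true h.1.1.1]
    have := Nat.le_of_ble_eq_true h.1.1.2
    omega
  | @l k w' p' l r _ ih =>
    have e' : TT.okb A off pre (.s k w' p' l r) = ba (ba (ba (Nat.beq (code p') k) (Nat.ble 1 k))
      (TP.all (fun x y => mt A x y p' (Nat.add (Nat.add w' off) (Nat.mul 2 BI))) pre))
      (ba (TT.okb A off pre l) (TT.okb A off pre r)) := rfl
    rw [e'] at h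
    simp only [and_true] at h
    exact ih h.2.1
  | @r k w' p' l r _ ih =>
    have e' : TT.okb A off pre (.s k w' p' l r) = ba (ba (ba (Nat.beq (code p') k) (Nat.ble 1 k))
      (TP.all (fun x y => mt A x y p' (Nat.add (Nat.add w' off) (Nat.mul 2 BI))) pre))
      (ba (TT.okb A off pre l) (TT.okb A off pre r)) := rfl
    rw [e'] at h
    simp only [and_true] at h
    exact ih h.2.2

theorem TT.at_mem : ∀ {t : TT} {i : ℕ} {k : MB → ℕ → Bool}, TT.at t i k = true →
    ∃ w p, TT.Mem w p t ∧ k p w = true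
  | .z, _, _, h => by simp [TT.at] at h
  | .s c w p l r, i, k, h => by
    have e : TT.at (.s c w p l r) i k = Bool.rec
      (Bool.rec (TT.at r (Nat.div i 2) k) (TT.at l (Nat.div i 2) k) (Nat.beq (Nat.mod i 2) 0))
      (k p w) (Nat.ble i 1) := rfl
    rw [e] at h
    cases h1 : Nat.ble i 1 with
    | true => rw [h1] at h; exact ⟨w, p, TT.Mem.h, h⟩
    | false =>
      rw [h1] at h
      cases h2 : Nat.beq (Nat.mod i 2) 0 with
      | true =>
        rw [h2] at h
        obtain ⟨w', p', h3, h4⟩ := TT.at_mem (t := l) h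
        exact ⟨w', p', TT.Mem.l h3, h4⟩
      | false =>
        rw [h2] at h
        obtain ⟨w', p', h3, h4⟩ := TT.at_mem (t := r) h
        exact ⟨w', p', TT.Mem.r h3, h4⟩

/-- the table of labels is correct -/
structure AOK (A : AT) (N : NT) (C n : ℕ) : Prop where
  cv : ∀ k < n, NT.look (lc k) N ≤ (A.get k).cv ∧ NT.look (lc k) N < 1048576
  hC : ∀ k < n, (A.get k).cv + (A.get k).off ≤ C + 2 * 4096
  ts : ∀ k < n, TT.okb A (A.get k).off (A.get k).pre (A.get k).ts = true
  ps : ∀ k < n, PT.okb A (A.get k).pre (A.get k).ps = true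

theorem AOK_of_aok {A : AT} {N : NT} {C : ℕ} : ∀ {n : ℕ}, aok A N C n = true → AOK A N C n
  | 0, _ => ⟨fun k h => absurd h (Nat.not_lt_zero k), fun k h => absurd h (Nat.not_lt_zero k),
      fun k h => absurd h (Nat.not_lt_zero k), fun k h => absurd h (Nat.not_lt_zero k)⟩
  | n + 1, h => by
    have e : aok A N C (n + 1) = ba (eok A N C n) (aok A N C n) := rfl
    rw [e, and_true] at h
    have ih := AOK_of_aok h.2
    have h1 : (((Nat.ble (NT.look (lc n) N) (A.get n).cv = true ∧
      Nat.ble (NT.look (lc n) N) 1048575 = true) ∧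
      Nat.ble (Nat.add (A.get n).cv (A.get n).off) (Nat.add C (Nat.mul 2 BI)) = true)) ∧
      TT.okb A (A.get n).off (A.get n).pre (A.get n).ts = true ∧
      PT.okb A (A.get n).pre (A.get n).ps = true := by
      have h2 := h.1
      unfold eok at h2
      simpa only [and_true] using h2
    obtain ⟨⟨⟨a1, a2⟩, a3⟩, a4, a5⟩ := h1
    have b1 := Nat.le_of_ble_eq_true a1
    have b2 := Nat.le_of_ble_eq_true a2
    have b3 : (A.get n).cv + (A.get n).off ≤ C + 2 * 4096 := Nat.le_of_ble_eq_true a3
    refine ⟨fun k hk => ?_, fun k hk => ?_, fun k hk => ?_, fun k hk => ?_⟩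
    · rcases Nat.lt_succ_iff_lt_or_eq.mp hk with h | rfl
      · exact ih.cv k h
      · exact ⟨b1, by omega⟩
    · rcases Nat.lt_succ_iff_lt_or_eq.mp hk with h | rfl
      · exact ih.hC k h
      · exact b3
    · rcases Nat.lt_succ_iff_lt_or_eq.mp hk with h | rfl
      · exact ih.ts k h
      · exact a4
    · rcases Nat.lt_succ_iff_lt_or_eq.mp hk with h | rfl
      · exact ih.ps k h
      · exact a5

/-- the hypotheses on the tables -/
structure Hyp (A : AT) (N : NT) (V : ℕ → ℕ) (C n : ℕ) : Prop where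
  a : AOK A N C n
  n : NT.ok A N V N
  v : ∀ b : MB, V (code b) < 65535 → pg.P 48 72 {(b, .e)} 0 (V (code b) : ℤ)

theorem beq_iff {a b : ℕ} : Nat.beq a b = true ↔ a = b :=
  ⟨Nat.eq_of_beq_eq_true, fun h => by rw [h]; exact Nat.beq_refl b⟩

theorem ble_iff {a b : ℕ} : Nat.ble a b = true ↔ a ≤ b :=
  ⟨Nat.le_of_ble_eq_true, Nat.ble_eq_true_of_le⟩

theorem beq_false {a b : ℕ} (h : a ≠ b) : Nat.beq a b = false := by
  cases h1 : Nat.beq a b with
  | true => exact absurd (Nat.eq_of_beq_eq_true h1) h
  | false => rfl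

theorem code_ne {q : MB} (h : code q ≠ 0) : q ≠ .e := by
  rintro rfl; exact h rfl

theorem xc_zero (A : AT) (x : ℕ) : xc A x 0 = cc A x := rfl

theorem xc_pos (A : AT) (x q : ℕ) (h : q ≠ 0) : xc A x q = tc A x q := by
  unfold xc
  rw [beq_false h]

theorem um_zero (x : ℕ) : um x 0 = Nat.beq x 0 := rfl

theorem um_pos (x q : ℕ) (h : q ≠ 0) : um x q = true := by
  unfold um
  rw [beq_false h]

theorem xc_sound {A : AT} {N : NT} {V : ℕ → ℕ} {C n : ℕ} (H : Hyp A N V C n) {x : Cd}
    (hx : Rn n x) (q : MB) (h : xc A (ofCd x) (code q) < 1048576) :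
    ∃ v, CT (au A n) (SN N) (TN A) x q (!(um (ofCd x) (code q))) v ∧
      v + 8192 ≤ xc A (ofCd x) (code q) := by
  by_cases hq : code q = 0
  · have hq' := code_zero hq
    subst hq'
    rw [code_e, xc_zero] at h ⊢
    rw [um_zero]
    cases x with
    | e => exact ⟨0, CT.e, by simp [cc, ofCd, BI]⟩
    | cut => exact ⟨-2, CT.cut, by simp [cc, ofCd, BI]⟩
    | z k =>
      have hk : k < n := hx
      obtain ⟨h1, h2⟩ := H.a.cv k hk
      obtain ⟨X, c, h3, h4⟩ := NT.look_mem (lc k) H.n h2
      have h5 := cdr_z h4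
      subst h5
      refine ⟨_, CT.zc (v := (NT.look (lc k) N : ℤ) - 4096) ⟨_, c, h3, rfl⟩, ?_⟩
      have e1 : (au A n).off k = ((A.get k).off : ℤ) - 4096 := rfl
      have e2 : cc A (ofCd (.z k)) = (A.get k).cv + (A.get k).off := rfl
      rw [e1, e2]
      push_cast
      have : (NT.look (lc k) N : ℤ) ≤ (A.get k).cv := by exact_mod_cast h1
      linarith
  · rw [xc_pos _ _ _ hq] at h ⊢
    rw [um_pos _ _ hq]
    cases x with
    | e => exact absurd h (lt_irrefl _)
    | cut => exact absurd h (lt_irrefl _)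
    | z k =>
      have hk : k < n := hx
      have e2 : tc A (ofCd (.z k)) (code q) = TT.look (code q) (A.get k).ts + (A.get k).off := rfl
      rw [e2] at h ⊢
      obtain ⟨p, h3, h4⟩ := TT.look_mem (code q) (H.a.ts k hk) (by omega)
      refine ⟨_, CT.zt (v := (TT.look (code q) (A.get k).ts : ℤ) - 4096)
        ⟨code_ne hq, _, p, h3, h4, rfl⟩, ?_⟩
      have e1 : (au A n).off k = ((A.get k).off : ℤ) - 4096 := rfl
      rw [e1]
      push_cast
      linarith

theorem mt1_sound {A : AT} {N : NT} {V : ℕ → ℕ} {C n : ℕ} (H : Hyp A N V C n) {x y : Cd}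
    (hx : Rn n x) (hy : Rn n y) {m : Bool} {p1 p2 p : MB} {W : ℕ}
    (hp : p = .n m p1 p2 ∨ p = .n m p2 p1)
    (h : mt1 A m (ofCd x) (ofCd y) (code p1) (code p2) W = true) :
    Mt (au A n) (SN N) (TN A) x y p ((W : ℤ) - 16384) := by
  unfold mt1 at h
  simp only [and_true, or_true, ble_iff, beq_iff] at h
  obtain ⟨h1, h2, h3⟩ := h
  have h2' : xc A (ofCd x) (code p1) + xc A (ofCd y) (code p2) ≤ W := h2
  have h3' : xc A (ofCd x) (code p1) + xc A (ofCd y) (code p2) ≤ 1048575 := h3
  obtain ⟨v1, g1, g2⟩ := xc_sound H hx p1 (by omega)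
  obtain ⟨v2, g3, g4⟩ := xc_sound H hy p2 (by omega)
  refine ⟨m, p1, p2, _, _, v1, v2, hp, g1, g3, ?_, ?_⟩
  · intro h5
    rcases h1 with h1 | h1 | h1
    · exact Or.inl h1
    · exact Or.inr ⟨code_zero h1.1, code_zero h1.2⟩
    · rw [h1.1, h1.2] at h5
      simp at h5
  · have : (xc A (ofCd x) (code p1) : ℤ) + xc A (ofCd y) (code p2) ≤ W := by exact_mod_cast h2'
    linarith

theorem mt_n (A : AT) (x y : ℕ) (m : Bool) (p1 p2 : MB) (W : ℕ) : mt A x y (.n m p1 p2) W =
    bo (mt1 A m x y (code p1) (code p2) W) (mt1 A m x y (code p2) (code p1) W) := rfl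

theorem mt_sound {A : AT} {N : NT} {V : ℕ → ℕ} {C n : ℕ} (H : Hyp A N V C n) {x y : Cd}
    (hx : Rn n x) (hy : Rn n y) {p : MB} {W : ℕ} (h : mt A (ofCd x) (ofCd y) p W = true) :
    Mt (au A n) (SN N) (TN A) x y p ((W : ℤ) - 16384) := by
  cases p with
  | e => exact absurd h (by simp [mt])
  | n m p1 p2 =>
    rw [mt_n, or_true] at h
    rcases h with h | h
    · exact mt1_sound H hx hy (Or.inl rfl) h
    · exact mt1_sound H hx hy (Or.inr rfl) h

theorem bo_comm (a b : Bool) : bo a b = bo b a := by cases a <;> cases b <;> rfl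

/-- the matching depends on the code only -/
theorem mt_code {A : AT} {x y : ℕ} {p p' : MB} {W : ℕ} (hc : code p = code p')
    (h : mt A x y p W = true) : mt A x y p' W = true := by
  cases p with
  | e => exact absurd h (by simp [mt])
  | n m p1 p2 =>
    cases p' with
    | e => exact absurd hc (mkc_ne_zero _ _ _)
    | n m' p1' p2' =>
      rw [code_n, code_n] at hc
      obtain ⟨m1, u, v, h1, h2, h3, h4⟩ := mkc_sorted m (code p1) (code p2)
      obtain ⟨m2, u', v', h1', h2', h3', h4'⟩ := mkc_sorted m' (code p1') (code p2')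
      have wd : ∀ q : MB, Wd (code q) := fun q => by rw [← cd_of]; exact cd_wd _
      have hu : Wd u := by rcases h3 with h3 | h3 <;> rw [h3.1] <;> exact wd _
      have hv : Wd v := by rcases h3 with h3 | h3 <;> rw [h3.2] <;> exact wd _
      have hu' : Wd u' := by rcases h3' with h3 | h3 <;> rw [h3.1] <;> exact wd _
      have hv' : Wd v' := by rcases h3' with h3 | h3 <;> rw [h3.2] <;> exact wd _
      rw [h1, h1'] at hc
      obtain ⟨e1, e2, e3⟩ := pc_w hu hv hu' hv' hc
      have fin : (code p1 = code p1' ∧ code p2 = code p2') ∨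
          (code p1 = code p2' ∧ code p2 = code p1') := by
        rcases h3 with h3 | h3 <;> rcases h3' with h3' | h3'
        · left; exact ⟨by rw [← h3.1, e2, h3'.1], by rw [← h3.2, e3, h3'.2]⟩
        · right; exact ⟨by rw [← h3.1, e2, h3'.1], by rw [← h3.2, e3, h3'.2]⟩
        · right; exact ⟨by rw [← h3.2, e3, h3'.2], by rw [← h3.1, e2, h3'.1]⟩
        · left; exact ⟨by rw [← h3.2, e3, h3'.2], by rw [← h3.1, e2, h3'.1]⟩
      have hm : m = m' ∨ ((code p1 = 0 ∧ code p2 = 0) ∧ (code p1' = 0 ∧ code p2' = 0)) := by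
        rcases h4 with h4 | h4
        · rcases h4' with h4' | h4'
          · left; rw [← h4, e1, h4']
          · right
            refine ⟨?_, h4'⟩
            rcases fin with h | h
            · exact ⟨by rw [h.1, h4'.1], by rw [h.2, h4'.2]⟩
            · exact ⟨by rw [h.1, h4'.2], by rw [h.2, h4'.1]⟩
        · right
          refine ⟨h4, ?_⟩
          rcases fin with h | h
          · exact ⟨by rw [← h.1, h4.1], by rw [← h.2, h4.2]⟩
          · exact ⟨by rw [← h.2, h4.2], by rw [← h.1, h4.1]⟩
      rw [mt_n] at h ⊢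
      have e0 : mt1 A m x y (code p1) (code p2) W = mt1 A m' x y (code p1) (code p2) W ∧
          mt1 A m x y (code p2) (code p1) W = mt1 A m' x y (code p2) (code p1) W := by
        rcases hm with rfl | ⟨⟨a, b⟩, -⟩
        · exact ⟨rfl, rfl⟩
        · rw [a, b]
          constructor <;> (unfold mt1; cases m <;> cases m' <;> rfl)
      rw [e0.1, e0.2] at h
      rcases fin with g | g
      · rw [← g.1, ← g.2]; exact h
      · rw [← g.1, ← g.2, bo_comm]; exact h

/-- the uniform terminations are closed -/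
theorem tok {A : AT} {N : NT} {V : ℕ → ℕ} {C n : ℕ} (H : Hyp A N V C n) :
    TOK (au A n) (SN N) (TN A) := by
  intro k p v hT x y hk
  obtain ⟨h1, h2, h3, h4⟩ := au_tr hk
  obtain ⟨-, w, p0, g1, g2, rfl⟩ := hT
  have g3 := (TT.ok_mem g1 (H.a.ts k h1)).2
  have g4 := TP.all_mem g3 h2
  have g5 := mt_sound H h3 h4 (mt_code g2 g4)
  have e1 : (au A n).off k = ((A.get k).off : ℤ) - 4096 := rfl
  rw [e1]
  have e2 : ((w + (A.get k).off + 2 * 4096 : ℕ) : ℤ) - 16384 =
      (w : ℤ) - 4096 + (((A.get k).off : ℤ) - 4096) := by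
    push_cast; ring
  rw [e2] at g5
  exact g5

/-- what the checker proves -/
def Good (A : AT) (N : NT) (n : ℕ) : Rq → Prop
  | .nd f X L => Der (au A n) (SN N) (TN A) VN f X ((L : ℤ) - 4096)
  | .ls C L a h => (∀ q w, PA.Mem q w a → Der (au A n) (SN N) (TN A) VN true (plug C (ofMB q))
        ((L : ℤ) + 12288 - w - 4096)) ∧
      (∀ x y, TP.mem x y h = true → Der (au A n) (SN N) (TN A) VN true (plug C (chn x y))
        ((L : ℤ) + 4096 - (ob A x + ob A y) - 4096))

theorem PA.any_mem {A : AT} {x y : ℕ} : ∀ {a : PA}, PA.any A x y a = true →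
    ∃ q w, PA.Mem q w a ∧ mt A x y q w = true
  | .z, h => by simp [PA.any] at h
  | .s p w t, h => by
    have e : PA.any A x y (.s p w t) = bo (mt A x y p w) (PA.any A x y t) := rfl
    rw [e, or_true] at h
    rcases h with h | h
    · exact ⟨p, w, PA.Mem.h, h⟩
    · obtain ⟨q, w', h1, h2⟩ := PA.any_mem h
      exact ⟨q, w', PA.Mem.t h1, h2⟩

theorem PT.at_ok {A : AT} {pre : TP} : ∀ {t : PT} {i : ℕ} {k : PA → TP → Bool},
    PT.okb A pre t = true → PT.at t i k = true →
    ∃ a h, TP.all (fun x y => bo (TP.mem x y h) (PA.any A x y a)) pre = true ∧ k a h = true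
  | .z, _, _, _, h => by simp [PT.at] at h
  | .s a h t, i, k, hk, hh => by
    have e : PT.okb A pre (.s a h t) = ba (TP.all (fun x y => bo (TP.mem x y h)
      (PA.any A x y a)) pre) (PT.okb A pre t) := rfl
    rw [e, and_true] at hk
    cases i with
    | zero => exact ⟨a, h, hk.1, hh⟩
    | succ i => exact PT.at_ok hk.2 (i := i) hh

theorem ofCd_ob (A : AT) (n : ℕ) (x : Cd) : (au A n).o x = (ob A (ofCd x) : ℤ) - 4096 := by
  cases x with
  | e => simp [Aut.o, ob, ofCd, BI]
  | cut => simp [Aut.o, ob, ofCd, BI, au]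
  | z k => rfl

theorem chn_eq (x y : Cd) : chn (ofCd x) (ofCd y) = .n (x.isCut || y.isCut) x.lt y.lt := by
  cases x <;> cases y <;> rfl

theorem chk_sound {A : AT} {N : NT} {V : ℕ → ℕ} {C n : ℕ} (H : Hyp A N V C n) (c : Ct) :
    ∀ q, chk A N V c q = true → Good A N n q := by
  induction c with
  | r =>
    intro q h
    cases q with
    | nd f X L =>
      have e : chk A N V .r (.nd f X L) = ba f (ba (Nat.ble (NT.look (cdr X) N) L)
        (Nat.ble (NT.look (cdr X) N) 1048575)) := rfl
      rw [e] at h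
      simp only [and_true, ble_iff] at h
      obtain ⟨rfl, h1, h2⟩ := h
      obtain ⟨X', c', h3, h4⟩ := NT.look_mem (cdr X) H.n (by omega)
      refine Der.ref ⟨_, c', h3, rfl⟩ (cdr_inj h4.symm) ?_
      have : (NT.look (cdr X) N : ℤ) ≤ L := by exact_mod_cast h1
      linarith
    | ls C L a h' =>
      have e : chk A N V .r (.ls C L a h') = PA.rec (TP.rec true (fun _ _ _ _ => false) h')
        (fun _ _ _ _ => false) a := rfl
      rw [e] at h
      cases a with
      | s p w t => exact absurd h (by simp)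
      | z =>
        cases h' with
        | s x y t => exact absurd h (by simp)
        | z =>
          exact ⟨fun q w hq => (by cases hq), fun x y hx => (by simp [TP.mem] at hx)⟩
  | v =>
    intro q h
    cases q with
    | ls C L a h' => exact absurd h (by simp [chk])
    | nd f X L =>
      have e : chk A N V .v (.nd f X L) = ba (pl X) (ba (Nat.ble (V (rc X)) 65534)
        (Nat.ble (V (rc X) + 4096) (25 * lsz X + L))) := rfl
      rw [e] at h
      simp only [and_true, ble_iff] at h
      obtain ⟨h1, h2, h3⟩ := h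
      obtain ⟨p, rfl, hp⟩ := pl_of h1
      refine Der.tab (p := p) (L' := (L : ℤ) - 4096) ?_ (Le.refl _) le_rfl
      have h3' : (V (rc (ofMB p)) : ℤ) ≤ 25 * p.size + ((L : ℤ) - 4096) := by
        have : ((V (rc (ofMB p)) + 4096 : ℕ) : ℤ) ≤ ((25 * lsz (ofMB p) + L : ℕ) : ℤ) := by
          exact_mod_cast h3
        push_cast at this
        rw [← hp] at this
        linarith
      cases p with
      | e =>
        have e1 : rc (ofMB .e) = code .e := rfl
        rw [e1] at h3' h2
        exact P_sub (H.v .e (by omega)) h3'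
      | n m x y =>
        have e1 : rc (ofMB (.n m x y)) = mkr true (code x) (code y) := by
          have : rc (ofMB (.n m x y)) = mkr true (cd (ofMB x)) (cd (ofMB y)) := rfl
          rw [this, cd_of, cd_of]
        obtain ⟨m', g1, g2⟩ := mkr_eq true x y
        rw [e1, g1] at h3' h2
        have g3 := H.v (.n m' x y) (by omega)
        exact P_sub (P_congr g2.symm (PEq.refl _) g3) h3'
  | c p w a b iha ihb =>
    intro q h
    cases q with
    | ls C L a h' => exact absurd h (by simp [chk])
    | nd f X L =>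
      have e : chk A N V (.c p w a b) (.nd f X L) = ba (Nat.ble w (L + 4096))
        (att X p .top (fun C Y =>
        ba (LT.rec false (fun _ => true) (fun _ _ _ _ _ => true) Y)
          (Cx.rec false
            (fun _ y C' _ => ba (chk A N V a (.nd true Y w))
              (chk A N V b (.nd true (plg C' (.n true .e y)) (L + 4096 - w))))
            (fun _ x C' _ => ba (chk A N V a (.nd true Y w))
              (chk A N V b (.nd true (plg C' (.n true x .e)) (L + 4096 - w)))) C))) := rfl
      rw [e] at h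
      simp only [and_true, ble_iff] at h
      obtain ⟨h1, h2⟩ := h
      obtain ⟨C, Y, h3, h4⟩ := att_sound X p .top _ h2
      rw [and_true] at h4
      obtain ⟨h5, h6⟩ := h4
      have hY : Y ≠ .e := by
        rintro rfl
        exact absurd h5 (by simp)
      have h3' : X = plug C Y := h3
      rw [h3']
      cases C with
      | top => exact absurd h6 (by simp)
      | l m y C =>
        have h7 : ba (chk A N V a (.nd true Y w))
          (chk A N V b (.nd true (plg C (.n true .e y)) (L + 4096 - w))) = true := h6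
        rw [and_true] at h7
        have g1 := iha _ h7.1
        have g2 := ihb _ h7.2
        rw [plg_eq] at g2
        refine Der.cl hY g1 g2 ?_
        push_cast [h1]
        linarith
      | r m y C =>
        have h7 : ba (chk A N V a (.nd true Y w))
          (chk A N V b (.nd true (plg C (.n true y .e)) (L + 4096 - w))) = true := h6
        rw [and_true] at h7
        have g1 := iha _ h7.1
        have g2 := ihb _ h7.2
        rw [plg_eq] at g2
        refine Der.cr hY g1 g2 ?_
        push_cast [h1]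
        linarith
  | t p i a iha =>
    intro q h
    cases q with
    | ls C L a h' => exact absurd h (by simp [chk])
    | nd f X L =>
      have e : chk A N V (.t p i a) (.nd f X L) = att X p .top (fun C Y => LT.rec false
        (fun k => TT.at (A.get k).ts i (fun b w => ba (Nat.ble w (L + 4096))
          (chk A N V a (.nd true (plg C (oM b)) (L + 4096 - w)))))
        (fun _ _ _ _ _ => false) Y) := rfl
      rw [e] at h
      obtain ⟨C, Y, h3, h4⟩ := att_sound X p .top _ h
      have h3' : X = plug C Y := h3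
      rw [h3']
      cases Y with
      | e => exact absurd h4 (by simp)
      | n m x y => exact absurd h4 (by simp)
      | z k =>
        have h5 : TT.at (A.get k).ts i (fun b w => ba (Nat.ble w (L + 4096))
          (chk A N V a (.nd true (plg C (oM b)) (L + 4096 - w)))) = true := h4
        obtain ⟨w, b, h6, h7⟩ := TT.at_mem h5
        simp only [and_true, ble_iff] at h7
        have g1 := iha _ h7.2
        rw [plg_eq, oM_eq] at g1
        by_cases hk : k < n
        · have h8 := (TT.ok_mem h6 (H.a.ts k hk)).1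
          refine Der.T (v := (w : ℤ) - 4096) ⟨code_ne h8, w, b, h6, rfl, rfl⟩ g1 ?_
          push_cast [h7.1]
          linarith
        · exact Der.U (fun x y hxy => absurd (au_tr hxy).1 hk)
  | u p j a iha =>
    intro q h
    cases q with
    | ls C L a h' => exact absurd h (by simp [chk])
    | nd f X L =>
      have e : chk A N V (.u p j a) (.nd f X L) = att X p .top (fun C Y => LT.rec false
        (fun k => PT.at (A.get k).ps j (fun a' h => chk A N V a
          (.ls C (L + (A.get k).off) a' h)))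
        (fun _ _ _ _ _ => false) Y) := rfl
      rw [e] at h
      obtain ⟨C, Y, h3, h4⟩ := att_sound X p .top _ h
      have h3' : X = plug C Y := h3
      rw [h3']
      cases Y with
      | e => exact absurd h4 (by simp)
      | n m x y => exact absurd h4 (by simp)
      | z k =>
        have h5 : PT.at (A.get k).ps j (fun a' h => chk A N V a
          (.ls C (L + (A.get k).off) a' h)) = true := h4
        by_cases hk : k < n
        · obtain ⟨a', h', h6, h7⟩ := PT.at_ok (H.a.ps k hk) h5
          obtain ⟨g1, g2⟩ := iha _ h7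
          refine Der.U (fun x y hxy => ?_)
          obtain ⟨-, h8, h9, h10⟩ := au_tr hxy
          have h11 := TP.all_mem h6 h8
          rw [or_true] at h11
          have e1 : (au A n).off k = ((A.get k).off : ℤ) - 4096 := rfl
          rcases h11 with h11 | h11
          · have g3 := g2 _ _ h11
            rw [chn_eq] at g3
            rw [e1, ofCd_ob, ofCd_ob]
            have e2 : ((L : ℤ) - 4096 + (((A.get k).off : ℤ) - 4096) - ((ob A (ofCd x) : ℤ) - 4096) -
                ((ob A (ofCd y) : ℤ) - 4096)) = (((L + (A.get k).off : ℕ) : ℤ) + 4096 -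
                (ob A (ofCd x) + ob A (ofCd y)) - 4096) := by
              push_cast; ring
            rw [e2]
            exact g3
          · obtain ⟨q, w, h12, h13⟩ := PA.any_mem h11
            have g3 := g1 _ _ h12
            have g4 := mt_sound H h9 h10 h13
            refine Der.M g4 g3 ?_
            rw [e1, ofCd_ob, ofCd_ob]
            push_cast
            linarith
        · exact Der.U (fun x y hxy => absurd (au_tr hxy).1 hk)
  | k a b iha ihb =>
    intro q h
    cases q with
    | nd f X L => exact absurd h (by simp [chk])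
    | ls C L pa h' =>
      cases pa with
      | z =>
        cases h' with
        | z => exact absurd h (by simp [chk])
        | s x y t =>
          have e : chk A N V (.k a b) (.ls C L .z (.s x y t)) =
            ba (Nat.ble (ob A x + ob A y) (L + 4096))
            (ba (chk A N V a (.nd true (plg C (chn x y)) (L + 4096 - (ob A x + ob A y))))
              (chk A N V b (.ls C L .z t))) := rfl
          rw [e] at h
          simp only [and_true, ble_iff] at h
          obtain ⟨h1, h2, h3⟩ := h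
          have g1 := iha _ h2
          rw [plg_eq] at g1
          have g2 := ihb _ h3
          refine ⟨g2.1, fun x' y' hm => ?_⟩
          have e' : TP.mem x' y' (.s x y t) =
            bo (ba (Nat.beq x' x) (Nat.beq y' y)) (TP.mem x' y' t) := rfl
          rw [e', or_true, and_true, beq_iff, beq_iff] at hm
          rcases hm with ⟨rfl, rfl⟩ | hm
          · have e2 : (((L + 4096 - (ob A x' + ob A y') : ℕ) : ℤ) - 4096) =
                ((L : ℤ) + 4096 - (ob A x' + ob A y') - 4096) := by
              push_cast [h1]; ring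
            have g3 : Der (au A n) (SN N) (TN A) VN true (plug C (chn x' y'))
              (((L + 4096 - (ob A x' + ob A y') : ℕ) : ℤ) - 4096) := g1
            rw [e2] at g3
            exact g3
          · exact g2.2 _ _ hm
      | s q w t =>
        have e : chk A N V (.k a b) (.ls C L (.s q w t) h') =
          ba (Nat.ble w (L + 3 * 4096))
          (ba (chk A N V a (.nd true (plg C (oM q)) (L + 3 * 4096 - w)))
            (chk A N V b (.ls C L t h'))) := rfl
        rw [e] at h
        simp only [and_true, ble_iff] at h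
        obtain ⟨h1, h2, h3⟩ := h
        have g1 := iha _ h2
        rw [plg_eq, oM_eq] at g1
        have g2 := ihb _ h3
        refine ⟨fun q' w' hm => ?_, g2.2⟩
        have g3 : Der (au A n) (SN N) (TN A) VN true (plug C (ofMB q))
          (((L + 3 * 4096 - w : ℕ) : ℤ) - 4096) := g1
        have e2 : (((L + 3 * 4096 - w : ℕ) : ℤ) - 4096) = ((L : ℤ) + 12288 - w - 4096) := by
          push_cast [h1]; ring
        rw [e2] at g3
        cases hm with
        | h => exact g3
        | t hm => exact g2.1 _ _ hm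

/-- all nodes are bounds -/
theorem all_nodes {A : AT} {N : NT} {V : ℕ → ℕ} {C n : ℕ} (H : Hyp A N V C n) :
    ∀ X L, SN N X L → ND.N (au A n) 48 72 25 X L := by
  refine sound (V := VN) (tok H) (fun p L h => h) ?_
  rintro X L ⟨w, c, hm, rfl⟩
  exact chk_sound H c _ (NT.ok_mem hm H.n)

/-- all derivable pieces are bounds -/
theorem der_N {A : AT} {N : NT} {V : ℕ → ℕ} {C n : ℕ} (H : Hyp A N V C n) {f : Bool} {X : LT}
    {L : ℤ} (h : Der (au A n) (SN N) (TN A) VN f X L) : ND.N (au A n) 48 72 25 X L := by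
  intro r s hr
  have h1 := (h.sound (tok H) (fun p L h => h) (r.size + und X r + 1)
    (fun X L hX r s hr _ => all_nodes H X L hX r s hr)).1
  exact h1 r s hr (Nat.lt_succ_self _)

/-- the rows of the table of pairs -/
def RowOK (A : AT) (N : NT) (V : ℕ → ℕ) (n x : ℕ) : Prop := ∃ r, rok A N V n x r 0 = true

theorem toCd_ex {n x : ℕ} (h : x < n + 2) : ∃ c, ofCd c = x ∧ Rn n c := by
  match x with
  | 0 => exact ⟨.e, rfl, trivial⟩
  | 1 => exact ⟨.cut, rfl, trivial⟩
  | k + 2 => exact ⟨.z k, rfl, by show k < n; omega⟩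

theorem ofCd_lt {n : ℕ} {c : Cd} (h : Rn n c) : ofCd c < n + 2 := by
  cases c with
  | e => simp [ofCd]
  | cut => simp [ofCd]
  | z k => have : k < n := h; simp only [ofCd]; omega

theorem rok_sound {A : AT} {N : NT} {V : ℕ → ℕ} {C n : ℕ} (H : Hyp A N V C n) {x : Cd}
    (hx : Rn n x) : ∀ (r : PR) (y0 : ℕ), rok A N V n (ofCd x) r y0 = true → ∀ y : Cd, Rn n y →
    y0 ≤ ofCd y → ofCd y ≤ ofCd x → St (au A n) 48 72 25 (Rn n) x y := by
  intro r
  induction r with
  | z =>
    intro y0 h y _ h1 h2
    have h3 : Nat.ble (ofCd x + 1) y0 = true := h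
    rw [ble_iff] at h3
    omega
  | t k r ih =>
    intro y0 h y hy h1 h2
    have e : rok A N V n (ofCd x) (.t k r) y0 =
      ba (ba (Nat.ble (k + 1) n) (TP.mem (ofCd x) y0 (A.get k).pre))
        (rok A N V n (ofCd x) r (y0 + 1)) := rfl
    rw [e] at h
    simp only [and_true, ble_iff] at h
    obtain ⟨⟨h3, h4⟩, h5⟩ := h
    rcases Nat.lt_or_ge y0 (ofCd y) with h6 | h6
    · exact ih _ h5 y hy h6 h2
    · have h7 : y0 = ofCd y := by omega
      subst h7
      obtain ⟨k', h8, h9⟩ := au_tr' h3 h4 hx hy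
      exact Or.inl ⟨k', h8, h9⟩
  | c c r ih =>
    intro y0 h y hy h1 h2
    have e : rok A N V n (ofCd x) (.c c r) y0 =
      ba (ba (Nat.ble (ob A (ofCd x) + ob A y0) (3 * 4096 - 2))
      (chk A N V c (.nd true (chn (ofCd x) y0) (3 * 4096 - 2 - (ob A (ofCd x) + ob A y0)))))
        (rok A N V n (ofCd x) r (y0 + 1)) := rfl
    rw [e] at h
    simp only [and_true, ble_iff] at h
    obtain ⟨⟨h3, h4⟩, h5⟩ := h
    rcases Nat.lt_or_ge y0 (ofCd y) with h6 | h6
    · exact ih _ h5 y hy h6 h2
    · have h7 : y0 = ofCd y := by omega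
      subst h7
      have g1 : Der (au A n) (SN N) (TN A) VN true (chn (ofCd x) (ofCd y))
        (((3 * 4096 - 2 - (ob A (ofCd x) + ob A (ofCd y)) : ℕ) : ℤ) - 4096) := chk_sound H c _ h4
      rw [chn_eq] at g1
      right
      have g2 := der_N H g1
      have e2 : (((3 * 4096 - 2 - (ob A (ofCd x) + ob A (ofCd y)) : ℕ) : ℤ) - 4096) =
          (-(au A n).kap - (au A n).o x - (au A n).o y) := by
        rw [ofCd_ob, ofCd_ob]
        have : (au A n).kap = 2 := rfl
        rw [this, Nat.cast_sub h3]
        push_cast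
        ring
      rw [e2] at g2
      exact g2

/-- the bound for all trees -/
theorem final {A : AT} {N : NT} {V : ℕ → ℕ} {C n : ℕ} (H : Hyp A N V C n)
    (hr : ∀ x < n + 2, RowOK A N V n x) (b : B) :
    pg.P 48 72 {(emb b, .e)} 0 (25 * b.size + C) := by
  refine bound (A := au A n) (Rn n) trivial trivial ?_ ?_ (by positivity) (by simp [au]) b
  · intro x y hx hy
    rcases Nat.le_total (ofCd y) (ofCd x) with h | h
    · left
      obtain ⟨r, h1⟩ := hr _ (ofCd_lt hx)
      exact rok_sound H hx r 0 h1 y hy (Nat.zero_le _) h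
    · right
      obtain ⟨r, h1⟩ := hr _ (ofCd_lt hy)
      exact rok_sound H hy r 0 h1 x hx (Nat.zero_le _) h
  · intro k hk
    have hk' : k < n := hk
    obtain ⟨h1, h2⟩ := H.a.cv k hk'
    obtain ⟨X, c, h3, h4⟩ := NT.look_mem (lc k) H.n h2
    have h5 := cdr_z h4
    subst h5
    have h6 := all_nodes H _ _ ⟨_, c, h3, rfl⟩
    have h7 := H.a.hC k hk'
    intro r s hrs
    refine P_sub (h6 r s hrs) ?_
    have e1 : (au A n).off k = ((A.get k).off : ℤ) - 4096 := rfl
    rw [e1]
    have h8 : (NT.look (lc k) N : ℤ) ≤ (A.get k).cv := by exact_mod_cast h1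
    have h9 : ((A.get k).cv : ℤ) + (A.get k).off ≤ C + 8192 := by exact_mod_cast h7
    linarith

theorem rows_ok {A : AT} {N : NT} {V : ℕ → ℕ} {n : ℕ} : ∀ (r : RS) (x0 : ℕ),
    RS.okb A N V n r x0 = true → ∀ j, j < RS.rec (motive := fun _ => ℕ) 0 (fun _ _ ih => ih + 1) r →
    RowOK A N V n (x0 + j)
  | .z, _, _, j, h => absurd h (Nat.not_lt_zero j)
  | .s r t, x0, h, j, hj => by
    have e : RS.okb A N V n (.s r t) x0 = ba (rok A N V n x0 r 0) (RS.okb A N V n t (x0 + 1)) := rfl
    rw [e, and_true] at h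
    cases j with
    | zero => exact ⟨r, h.1⟩
    | succ j =>
      have h1 := rows_ok t (x0 + 1) h.2 j (Nat.lt_of_succ_lt_succ hj)
      rw [show x0 + (j + 1) = x0 + 1 + j by omega]
      exact h1

end Pool.Agent.Helper66.ND
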