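import Pool.Agent.Helper66.IL.Cover

/-!
The node system: bounds for all instantiations of finitely many labelled pieces, where the
labels stand for the branches of the real tree that have a given state of a finite automaton.
-/

namespace Pool.Agent.Helper66.ND

open Pool.Agent.Helper44.Idg (Gm Cm)
open Pool.Agent.Helper60.Idg (B)
open Pool.Agent.Helper66.IL

/-- codes of branches: empty, cut off, or a state -/
inductive Cd where
  | e : Cd
  | cut : Cd
  | z : ℕ → Cd
deriving DecidableEq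

/-- labelled branches: `z k` is an undecided branch with state `k` -/
inductive LT where
  | e : LT
  | z : ℕ → LT
  | n : Bool → LT → LT → LT
deriving DecidableEq

namespace Cd

def isCut : Cd → Bool
  | cut => true
  | _ => false

def lt : Cd → LT
  | e => .e
  | cut => .e
  | z k => .z k

end Cd

/-- a labelled branch without labels -/
def ofMB : MB → LT
  | .e => .e
  | .n m x y => .n m (ofMB x) (ofMB y)

/-- the automaton: transitions and offsets -/
structure Aut where
  tr : Cd → Cd → Cd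
  off : ℕ → ℤ
  kap : ℤ

/-- the offset of a code -/
def Aut.o (A : Aut) : Cd → ℤ
  | .e => 0
  | .cut => -A.kap
  | .z k => A.off k

/-- `Rl A c r s`: the marked branch `r` has code `c` and offset `s`. -/
inductive Rl (A : Aut) : Cd → MB → ℤ → Prop
  | e : Rl A .e .e 0
  | cut : Rl A .cut .e (-A.kap)
  | n {x y : Cd} {a b : MB} {s t : ℤ} {k : ℕ} : A.tr x y = .z k → Rl A x a s → Rl A y b t →
      Rl A (.z k) (.n (x.isCut || y.isCut) a b) (s + t)

/-- instantiations of labelled branches -/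
inductive Ins (A : Aut) : LT → MB → ℤ → Prop
  | e : Ins A .e .e 0
  | z {k : ℕ} {r : MB} {o : ℤ} : Rl A (.z k) r o → Ins A (.z k) r (A.off k - o)
  | n {m : Bool} {x y : LT} {a b : MB} {s t : ℤ} : Ins A x a s → Ins A y b t →
      Ins A (.n m x y) (.n m a b) (s + t)

/-- the number of undecided vertices -/
def und : LT → MB → ℕ
  | .z _, r => r.size
  | .n _ x y, .n _ a b => und x a + und y b
  | _, _ => 0

theorem Rl.size {A : Aut} {k : ℕ} {r : MB} {o : ℤ} (h : Rl A (.z k) r o) : 0 < r.size := by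
  cases h with
  | n h1 h2 h3 => simp only [MB.size]; omega

theorem Rl.code {A : Aut} {x : Cd} {a : MB} {s : ℤ} (h : Rl A x a s) :
    Ins A x.lt a (A.o x - s) := by
  cases h with
  | e => exact Ins.e
  | cut =>
    have : A.o .cut - -A.kap = 0 := by simp [Aut.o]
    rw [this]; exact Ins.e
  | n h1 h2 h3 => exact Ins.z (Rl.n h1 h2 h3)

theorem Rl.und_code {A : Aut} {x : Cd} {a : MB} {s : ℤ} (h : Rl A x a s) :
    und x.lt a = a.size := by
  cases h with
  | e => rfl
  | cut => rfl
  | n h1 h2 h3 => rfl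

/-- contexts (from the hole upwards) -/
inductive Cx where
  | top : Cx
  | l : Bool → LT → Cx → Cx
  | r : Bool → LT → Cx → Cx

def plug : Cx → LT → LT
  | .top, X => X
  | .l m y C, X => plug C (.n m X y)
  | .r m x C, X => plug C (.n m x X)

/-- real contexts -/
inductive CM where
  | top : CM
  | l : Bool → MB → CM → CM
  | r : Bool → MB → CM → CM

def plugM : CM → MB → MB
  | .top, a => a
  | .l m b C, a => plugM C (.n m a b)
  | .r m a' C, a => plugM C (.n m a' a)

def CM.isTop : CM → Bool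
  | .top => true
  | _ => false

def CM.size : CM → ℕ
  | .top => 0
  | .l _ b C => b.size + C.size + 1
  | .r _ b C => b.size + C.size + 1

/-- the context as a branch -/
def ctx : CM → MB
  | .top => .e
  | .l m b C => .n (m || C.isTop) b (ctx C)
  | .r m a C => .n (m || C.isTop) a (ctx C)

theorem mkf_size (f : Bool) (a : MB) : (mkf f a).size = a.size := by
  cases f
  · rfl
  · exact mk_size a

theorem plugM_size (C : CM) : ∀ a : MB, (plugM C a).size = C.size + a.size := by
  induction C with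
  | top => intro a; simp [plugM, CM.size]
  | l m b C ih => intro a; simp only [plugM, ih, CM.size, MB.size]; omega
  | r m b C ih => intro a; simp only [plugM, ih, CM.size, MB.size]; omega

theorem plug_eq (C : CM) : ∀ a : MB, PEq {(MB.mk (plugM C a), .e)} {(mkf C.isTop a, ctx C)} := by
  induction C with
  | top => intro a; exact PEq.refl _
  | l m b C ih =>
    intro a
    refine (ih (.n m a b)).trans ?_
    rw [mkf_n]
    exact PEq.rho _ _ _ _
  | r m b C ih =>
    intro a
    refine (ih (.n m b a)).trans ?_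
    rw [mkf_n]
    exact (PEq.sw _ _ _ _).trans (PEq.rho _ _ _ _)

/-- instantiations of contexts -/
inductive InsC (A : Aut) : Cx → CM → ℤ → Prop
  | top : InsC A .top .top 0
  | l {m : Bool} {y : LT} {C : Cx} {b : MB} {D : CM} {s t : ℤ} : Ins A y b s → InsC A C D t →
      InsC A (.l m y C) (.l m b D) (s + t)
  | r {m : Bool} {y : LT} {C : Cx} {b : MB} {D : CM} {s t : ℤ} : Ins A y b s → InsC A C D t →
      InsC A (.r m y C) (.r m b D) (s + t)

def undC : Cx → CM → ℕ
  | .l _ y C, .l _ b D => und y b + undC C D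
  | .r _ y C, .r _ b D => und y b + undC C D
  | _, _ => 0

theorem Ins.plug_inv {A : Aut} (C : Cx) : ∀ {X : LT} {r : MB} {s : ℤ}, Ins A (plug C X) r s →
    ∃ (D : CM) (a : MB) (s1 s2 : ℤ), r = plugM D a ∧ InsC A C D s1 ∧ Ins A X a s2 ∧
      s = s1 + s2 := by
  induction C with
  | top =>
    intro X r s h
    exact ⟨.top, r, 0, s, rfl, InsC.top, h, by ring⟩
  | l m y C ih =>
    intro X r s h
    obtain ⟨D, a, s1, s2, rfl, h1, h2, rfl⟩ := ih h
    cases h2 with
    | @n _ _ _ a b s t ha hb =>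
      exact ⟨.l m b D, a, t + s1, s, rfl, InsC.l hb h1, ha, by ring⟩
  | r m y C ih =>
    intro X r s h
    obtain ⟨D, a, s1, s2, rfl, h1, h2, rfl⟩ := ih h
    cases h2 with
    | @n _ _ _ a b s t ha hb =>
      exact ⟨.r m a D, b, s + s1, t, rfl, InsC.r ha h1, hb, by ring⟩

theorem InsC.plug {A : Aut} {C : Cx} {D : CM} {s1 : ℤ} (h : InsC A C D s1) :
    ∀ {X : LT} {a : MB} {s2 : ℤ}, Ins A X a s2 → Ins A (plug C X) (plugM D a) (s1 + s2) := by
  induction h with
  | top => intro X a s2 h; simpa [ND.plug, plugM] using h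
  | @l m y C b D s t hb hC ih =>
    intro X a s2 h
    have := ih (Ins.n (m := m) h hb)
    rw [show s + t + s2 = t + (s2 + s) by ring]
    exact this
  | @r m y C b D s t hb hC ih =>
    intro X a s2 h
    have := ih (Ins.n (m := m) hb h)
    rw [show s + t + s2 = t + (s + s2) by ring]
    exact this

theorem InsC.und {A : Aut} {C : Cx} {D : CM} {s1 : ℤ} (h : InsC A C D s1) :
    ∀ (X : LT) (a : MB), ND.und (ND.plug C X) (plugM D a) = undC C D + ND.und X a := by
  induction h with
  | top => intro X a; simp [ND.plug, plugM, undC]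
  | @l m y C b D s t hb hC ih =>
    intro X a
    simp only [ND.plug, plugM, ih, undC, ND.und]; omega
  | @r m y C b D s t hb hC ih =>
    intro X a
    simp only [ND.plug, plugM, ih, undC, ND.und]; omega

/-- comparison of labelled branches: swapped children, additional marks, marks of leaves -/
inductive Le : LT → LT → Prop
  | e : Le .e .e
  | z (k : ℕ) : Le (.z k) (.z k)
  | lf (m m' : Bool) : Le (.n m .e .e) (.n m' .e .e)
  | n {m m' : Bool} {x y x' y' : LT} : (m = true → m' = true) → Le x x' → Le y y' →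
      Le (.n m x y) (.n m' x' y')
  | s {m m' : Bool} {x y x' y' : LT} : (m = true → m' = true) → Le x y' → Le y x' →
      Le (.n m x y) (.n m' x' y')

theorem Le.refl : ∀ X : LT, Le X X
  | .e => Le.e
  | .z k => Le.z k
  | .n _ x y => Le.n id (Le.refl x) (Le.refl y)

/-- relaxations of branches -/
def RB (r r' : MB) : Prop := ∀ c, Rx {(r, c)} {(r', c)}

theorem RB.refl (r : MB) : RB r r := fun _ => Rx.refl _

theorem RB.trans {a b c : MB} (h : RB a b) (h' : RB b c) : RB a c :=
  fun d => (h d).trans (h' d)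

theorem RB.mark (m m' : Bool) (h : m = true → m' = true) (x y : MB) :
    RB (.n m x y) (.n m' x y) := by
  intro c
  cases m
  · cases m'
    · exact Rx.refl _
    · exact Rx.mark _ _ _
  · rw [h rfl]; exact Rx.refl _

theorem RB.left {m : Bool} {x x' y : MB} (h : RB x x') : RB (.n m x y) (.n m x' y) := by
  intro c
  exact ((Rx.peq (PEq.rho _ _ _ _)).trans (h _)).trans (Rx.peq (PEq.rho _ _ _ _).symm)

theorem RB.sw (m : Bool) (x y : MB) : RB (.n m x y) (.n m y x) :=
  fun c => Rx.peq (PEq.sw m x y c)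

theorem RB.right {m : Bool} {x y y' : MB} (h : RB y y') : RB (.n m x y) (.n m x y') :=
  (RB.sw m x y).trans (h.left.trans (RB.sw m y' x))

theorem RB.both {m m' : Bool} (h : m = true → m' = true) {x x' y y' : MB} (hx : RB x x')
    (hy : RB y y') : RB (.n m x y) (.n m' x' y') :=
  (RB.mark m m' h x y).trans (hx.left.trans hy.right)

theorem Le.ins {A : Aut} {X X' : LT} (h : Le X X') : ∀ {r : MB} {s : ℤ}, Ins A X r s →
    ∃ r', Ins A X' r' s ∧ RB r r' ∧ RB (MB.mk r) (MB.mk r') ∧ r'.size = r.size ∧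
      und X' r' = und X r := by
  induction h with
  | e => intro r s h; exact ⟨r, h, RB.refl _, RB.refl _, rfl, rfl⟩
  | z k => intro r s h; exact ⟨r, h, RB.refl _, RB.refl _, rfl, rfl⟩
  | lf m m' =>
    intro r s h
    cases h with
    | n hx hy =>
      cases hx; cases hy
      refine ⟨.n m' .e .e, Ins.n Ins.e Ins.e, fun c => Rx.peq (PEq.lf _ _ _), RB.refl _, rfl, rfl⟩
  | @n m m' x y x' y' hm _ _ ihx ihy =>
    intro r s h
    cases h with
    | @n _ _ _ a b s t hx hy =>
      obtain ⟨a', h1, h2, -, h3, h4⟩ := ihx hx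
      obtain ⟨b', h5, h6, -, h7, h8⟩ := ihy hy
      refine ⟨.n m' a' b', Ins.n h1 h5, RB.both hm h2 h6, RB.both (fun h => h) h2 h6, ?_, ?_⟩
      · simp only [MB.size, h3, h7]
      · simp only [und, h4, h8]
  | @s m m' x y x' y' hm _ _ ihx ihy =>
    intro r s h
    cases h with
    | @n _ _ _ a b s t hx hy =>
      obtain ⟨a', h1, h2, -, h3, h4⟩ := ihx hx
      obtain ⟨b', h5, h6, -, h7, h8⟩ := ihy hy
      refine ⟨.n m' b' a', ?_, (RB.both hm h2 h6).trans (RB.sw _ _ _),
        (RB.both (fun h => h) h2 h6).trans (RB.sw _ _ _), ?_, ?_⟩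
      · rw [add_comm]; exact Ins.n h5 h1
      · simp only [MB.size, h3, h7]; omega
      · simp only [und, h4, h8]; omega

/-- the bound of a node for instantiations of bounded size -/
def NB (A : Aut) (u θ l : ℤ) (n : ℕ) (X : LT) (L : ℤ) : Prop :=
  ∀ r s, Ins A X r s → r.size + und X r < n → pg.P u θ {(MB.mk r, .e)} 0 (l * r.size + L + s)

/-- the piece with marked root -/
def rt : LT → LT
  | .n _ x y => .n true x y
  | X => X

theorem NB.rt {A : Aut} {u θ l : ℤ} {n : ℕ} {X : LT} {L : ℤ} (h : NB A u θ l n (rt X) L) :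
    NB A u θ l n X L := by
  intro r s hr hn
  cases hr with
  | e => exact h _ _ Ins.e hn
  | z h1 => exact h _ _ (Ins.z h1) hn
  | n hx hy =>
    have := h _ _ (Ins.n (m := true) hx hy) (by simp only [MB.size, und] at hn ⊢; exact hn)
    simpa only [MB.mk, MB.size] using this

theorem NB.rt' {A : Aut} {u θ l : ℤ} {n : ℕ} {X : LT} {L : ℤ} (h : NB A u θ l n X L) :
    NB A u θ l n (ND.rt X) L := by
  cases X with
  | e => exact h
  | z k => exact h
  | n m x y =>
    intro r s hr hn
    cases hr with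
    | n hx hy =>
      have := h _ _ (Ins.n (m := m) hx hy) (by simp only [MB.size, und] at hn ⊢; exact hn)
      simpa only [MB.mk, MB.size] using this

/-- the bound of a node -/
def N (A : Aut) (u θ l : ℤ) (X : LT) (L : ℤ) : Prop :=
  ∀ r s, Ins A X r s → pg.P u θ {(MB.mk r, .e)} 0 (l * r.size + L + s)

theorem P_sub {u θ : ℤ} {X Y : Multiset K} {m m' : ℤ} (h : pg.P u θ X Y m) (hm : m ≤ m') :
    pg.P u θ X Y m' := h.mono le_rfl hm

theorem NB.le {A : Aut} {u θ l : ℤ} {n : ℕ} {X X' : LT} {L L' : ℤ} (h : NB A u θ l n X' L')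
    (hX : Le X X') (hL : L' ≤ L) : NB A u θ l n X L := by
  intro r s hr hn
  obtain ⟨r', h1, -, h2, h3, h4⟩ := hX.ins hr
  have := P_relax (h2 .e) (h r' s h1 (by omega))
  rw [h3] at this
  exact P_sub this (by linarith)

/-- a child: code, plain branch, whether it is cut, and cost -/
inductive CT (A : Aut) (S : LT → ℤ → Prop) (T : ℕ → MB → ℤ → Prop) : Cd → MB → Bool → ℤ → Prop
  | e : CT A S T .e .e false 0
  | cut : CT A S T .cut .e true (-A.kap)
  | zc {k : ℕ} {v : ℤ} : S (.z k) v → CT A S T (.z k) .e true (v + A.off k)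
  | zt {k : ℕ} {p : MB} {v : ℤ} : T k p v → CT A S T (.z k) p false (v + A.off k)

/-- both children are cut to the branch `p` -/
def Mt (A : Aut) (S : LT → ℤ → Prop) (T : ℕ → MB → ℤ → Prop) (x y : Cd) (p : MB) (v : ℤ) : Prop :=
  ∃ m p1 p2 c1 c2 v1 v2, (p = .n m p1 p2 ∨ p = .n m p2 p1) ∧ CT A S T x p1 c1 v1 ∧
    CT A S T y p2 c2 v2 ∧ ((c1 || c2) = true → m = true ∨ (p1 = .e ∧ p2 = .e)) ∧ v1 + v2 ≤ v

/-- closure of the table of uniform terminations -/
def TOK (A : Aut) (S : LT → ℤ → Prop) (T : ℕ → MB → ℤ → Prop) : Prop :=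
  ∀ k p v, T k p v → ∀ x y, A.tr x y = .z k → Mt A S T x y p (v + A.off k)

/-- covering of a real child -/
theorem CT.sound {A : Aut} {S : LT → ℤ → Prop} {T : ℕ → MB → ℤ → Prop} {u θ l : ℤ}
    {x : Cd} {p : MB} {f : Bool} {v : ℤ} (h : CT A S T x p f v) {a : MB} {s : ℤ} (hr : Rl A x a s)
    (hS : ∀ k w, S (.z k) w → x = .z k → pg.P u θ {(MB.mk a, .e)} 0 (l * a.size + w + (A.off k - s)))
    (hT : ∀ k w, T k p w → x = .z k → ∀ (c : MB) (m : ℤ), pg.P u θ {(p, c)} 0 m →
      pg.P u θ {(a, c)} 0 (m + (l * (a.size - p.size) + w + A.off k - s)))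
    (c : MB) (m : ℤ) (hc : pg.P u θ {(p, mkf f c)} 0 m) :
    pg.P u θ {(a, mkf x.isCut c)} 0 (m + (l * (a.size - p.size) + v - s)) := by
  cases h with
  | e =>
    cases hr
    simpa [mkf, Cd.isCut] using hc
  | cut =>
    cases hr
    simpa [mkf, Cd.isCut] using hc
  | @zc k v h =>
    have h1 := hS k v h rfl
    have h2 : pg.P u θ {(MB.mk c, .e)} 0 m := P_congr (PEq.sig _ _) (PEq.refl _) hc
    have h3 := P_cut h1 h2
    refine P_sub h3 (le_of_eq ?_)
    simp only [MB.size]
    push_cast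
    ring
  | @zt k p v h =>
    refine P_sub (hT k v h rfl c m hc) (le_of_eq ?_)
    ring

theorem CT.size {A : Aut} {S : LT → ℤ → Prop} {T : ℕ → MB → ℤ → Prop} {x : Cd} {q : MB} {c : Bool}
    {w : ℤ} (h : CT A S T x q c w) {a : MB} {s : ℤ} (hr : Rl A x a s)
    (hT : ∀ k w, T k q w → x = .z k → q.size ≤ a.size) : q.size ≤ a.size := by
  cases h with
  | e => simp [MB.size]
  | cut => simp [MB.size]
  | zc _ => simp [MB.size]
  | zt h => exact hT _ _ h rfl

theorem Mt.size {A : Aut} {S : LT → ℤ → Prop} {T : ℕ → MB → ℤ → Prop} {x y : Cd} {p : MB} {v : ℤ}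
    (h : Mt A S T x y p v) {a b : MB} {s t : ℤ} (hx : Rl A x a s) (hy : Rl A y b t)
    (hTx : ∀ k q w, T k q w → x = .z k → q.size ≤ a.size)
    (hTy : ∀ k q w, T k q w → y = .z k → q.size ≤ b.size) : p.size ≤ a.size + b.size + 1 := by
  obtain ⟨m, p1, p2, c1, c2, v1, v2, hp, h1, h2, -, -⟩ := h
  have e1 := h1.size hx (fun k w h1 h2 => hTx k p1 w h1 h2)
  have e2 := h2.size hy (fun k w h1 h2 => hTy k p2 w h1 h2)
  rcases hp with rfl | rfl <;> simp only [MB.size] <;> omega

theorem T_size {A : Aut} {S : LT → ℤ → Prop} {T : ℕ → MB → ℤ → Prop} (hTOK : TOK A S T) :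
    ∀ (n : ℕ) {k : ℕ} {a p : MB} {o v : ℤ}, a.size ≤ n → Rl A (.z k) a o → T k p v →
      p.size ≤ a.size := by
  intro n
  induction n with
  | zero =>
    intro k a p o v hn h _
    have := h.size
    omega
  | succ n ih =>
    intro k a p o v hn h hT
    cases h with
    | @n x y a b s t k hk hx hy =>
      simp only [MB.size] at hn
      have := (hTOK k p v hT x y hk).size hx hy
        (fun k q w h1 h2 => ih (by omega) (h2 ▸ hx) h1)
        (fun k q w h1 h2 => ih (by omega) (h2 ▸ hy) h1)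
      simpa [MB.size] using this

/-- covering of a real branch by the coverings of its children -/
theorem Mt.sound {A : Aut} {S : LT → ℤ → Prop} {T : ℕ → MB → ℤ → Prop} {u θ l : ℤ}
    {x y : Cd} {p : MB} {v : ℤ} (hM : Mt A S T x y p v) {a b : MB} {s t : ℤ}
    (hx : Rl A x a s) (hy : Rl A y b t)
    (hSx : ∀ k w, S (.z k) w → x = .z k →
      pg.P u θ {(MB.mk a, .e)} 0 (l * a.size + w + (A.off k - s)))
    (hSy : ∀ k w, S (.z k) w → y = .z k →
      pg.P u θ {(MB.mk b, .e)} 0 (l * b.size + w + (A.off k - t)))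
    (hTx : ∀ k q w, T k q w → x = .z k → ∀ (c : MB) (m : ℤ), pg.P u θ {(q, c)} 0 m →
      pg.P u θ {(a, c)} 0 (m + (l * (a.size - q.size) + w + A.off k - s)))
    (hTy : ∀ k q w, T k q w → y = .z k → ∀ (c : MB) (m : ℤ), pg.P u θ {(q, c)} 0 m →
      pg.P u θ {(b, c)} 0 (m + (l * (b.size - q.size) + w + A.off k - t)))
    (f : Bool) (c : MB) (m : ℤ) (hc : pg.P u θ {(mkf f p, c)} 0 m) :
    pg.P u θ {(mkf f (.n (x.isCut || y.isCut) a b), c)} 0
      (m + (l * ((a.size + b.size + 1 : ℕ) - p.size) + v - (s + t))) := by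
  obtain ⟨m0, p1, p2, c1, c2, v1, v2, hp, h1, h2, hm, hv⟩ := hM
  have e0 : (p.size : ℤ) = p1.size + p2.size + 1 := by
    rcases hp with rfl | rfl
    · simp only [MB.size]; push_cast; ring
    · simp only [MB.size]; push_cast; ring
  have s0 : pg.P u θ {(MB.n (m0 || f) p1 p2, c)} 0 m := by
    rcases hp with rfl | rfl
    · rw [mkf_n] at hc; exact hc
    · rw [mkf_n] at hc
      exact P_congr (PEq.sw _ _ _ _) (PEq.refl _) hc
  have s1 : pg.P u θ {(MB.n (f || c1 || c2) p1 p2, c)} 0 m := by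
    by_cases hcc : (c1 || c2) = true
    · rcases hm hcc with rfl | ⟨rfl, rfl⟩
      · rw [Bool.or_assoc, hcc, Bool.or_true]
        rw [Bool.true_or] at s0
        exact s0
      · exact P_congr (PEq.lf _ _ _) (PEq.refl _) s0
    · rw [Bool.not_eq_true] at hcc
      rw [Bool.or_assoc, hcc, Bool.or_false]
      exact P_relax (RB.mark f (m0 || f) (by intro h; simp [h]) p1 p2 c) s0
  have s2 : pg.P u θ {(p2, mkf c2 (MB.n (f || c1) p1 c))} 0 m := by
    rw [mkf_n]
    exact P_congr ((PEq.sw _ _ _ _).trans (PEq.rho _ _ _ _)) (PEq.refl _) s1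
  have s3 := h2.sound hy hSy (fun k w hk he => hTy k p2 w hk he) _ _ s2
  have s4 : pg.P u θ {(p1, mkf c1 (MB.n (f || y.isCut) b c))} 0
      (m + (l * (b.size - p2.size) + v2 - t)) := by
    rw [mkf_n] at s3 ⊢
    have e : (f || y.isCut || c1) = (f || c1 || y.isCut) := by
      cases f <;> cases c1 <;> cases y.isCut <;> rfl
    rw [e]
    exact P_congr ((PEq.rho _ _ _ _).symm.trans ((PEq.sw _ _ _ _).trans (PEq.rho _ _ _ _)))
      (PEq.refl _) s3
  have s5 := h1.sound hx hSx (fun k w hk he => hTx k p1 w hk he) _ _ s4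
  rw [mkf_n] at s5 ⊢
  have e : (x.isCut || y.isCut || f) = (f || y.isCut || x.isCut) := by
    cases f <;> cases x.isCut <;> cases y.isCut <;> rfl
  rw [e]
  refine P_sub (P_congr (PEq.rho _ _ _ _).symm (PEq.refl _) s5) ?_
  push_cast
  rw [e0]
  nlinarith

/-- soundness of uniform terminations -/
theorem T_sound {A : Aut} {S : LT → ℤ → Prop} {T : ℕ → MB → ℤ → Prop} {u θ l : ℤ}
    (hTOK : TOK A S T) : ∀ (n : ℕ), (∀ k w, S (.z k) w → ∀ a s, Rl A (.z k) a s → a.size < n →
      pg.P u θ {(MB.mk a, .e)} 0 (l * a.size + w + (A.off k - s))) →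
    ∀ {k : ℕ} {r : MB} {o : ℤ}, r.size ≤ n → Rl A (.z k) r o → ∀ {p : MB} {v : ℤ}, T k p v →
      ∀ (f : Bool) (c : MB) (m : ℤ), pg.P u θ {(mkf f p, c)} 0 m →
        pg.P u θ {(mkf f r, c)} 0 (m + (l * (r.size - p.size) + v + A.off k - o)) := by
  intro n
  induction n with
  | zero =>
    intro _ k r o hn h
    have := h.size
    omega
  | succ n ih =>
    intro hS k r o hn h p v hT f c m hc
    have ih' := @ih (fun k w hk a s ha hs => hS k w hk a s ha (by omega))
    cases h with
    | @n x y a b s t k hk hx hy =>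
      simp only [MB.size] at hn
      refine P_sub ((hTOK k p v hT x y hk).sound hx hy
        (fun k w hk he => hS k w hk a s (he ▸ hx) (by omega))
        (fun k w hk he => hS k w hk b t (he ▸ hy) (by omega))
        (fun k q w hk he c m hc => ih' (by omega) (he ▸ hx) hk false c m hc)
        (fun k q w hk he c m hc => ih' (by omega) (he ▸ hy) hk false c m hc) f c m hc)
        (le_of_eq ?_)
      simp only [MB.size]
      ring

theorem ofMB_ins (A : Aut) : ∀ p : MB, Ins A (ofMB p) p 0
  | .e => Ins.e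
  | .n m x y => by
    have := Ins.n (m := m) (ofMB_ins A x) (ofMB_ins A y)
    rw [add_zero] at this
    exact this

theorem ofMB_und : ∀ p : MB, und (ofMB p) p = 0
  | .e => rfl
  | .n m x y => by simp [ofMB, und, ofMB_und x, ofMB_und y]

theorem ofMB_inv {A : Aut} : ∀ {p r : MB} {s : ℤ}, Ins A (ofMB p) r s → r = p ∧ s = 0
  | .e, _, _, h => by cases h; exact ⟨rfl, rfl⟩
  | .n m x y, _, _, h => by
    cases h with
    | n hx hy =>
      obtain ⟨rfl, rfl⟩ := ofMB_inv hx
      obtain ⟨rfl, rfl⟩ := ofMB_inv hy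
      exact ⟨rfl, by ring⟩

/-- derivations of nodes from the nodes `S`, the uniform terminations `T` and the table `V`; the
nodes `S` may be used after a proper step only (flag `true`) -/
inductive Der (A : Aut) (S : LT → ℤ → Prop) (T : ℕ → MB → ℤ → Prop) (V : MB → ℤ → Prop) :
    Bool → LT → ℤ → Prop
  | ref {X X' : LT} {L L' : ℤ} : S X' L' → Le (rt X) (rt X') → L' ≤ L → Der A S T V true X L
  | tab {f : Bool} {X : LT} {p : MB} {L L' : ℤ} : V p L' → Le X (ofMB p) → L' ≤ L →
      Der A S T V f X L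
  | U {f : Bool} {C : Cx} {k : ℕ} {L : ℤ} : (∀ x y, A.tr x y = .z k →
      Der A S T V true (plug C (.n (x.isCut || y.isCut) x.lt y.lt)) (L + A.off k - A.o x - A.o y)) →
      Der A S T V f (plug C (.z k)) L
  | cl {f : Bool} {C : Cx} {m : Bool} {X y : LT} {L L1 L2 : ℤ} : X ≠ .e → Der A S T V true X L1 →
      Der A S T V true (plug C (.n true .e y)) L2 → L1 + L2 ≤ L →
      Der A S T V f (plug C (.n m X y)) L
  | cr {f : Bool} {C : Cx} {m : Bool} {X y : LT} {L L1 L2 : ℤ} : X ≠ .e → Der A S T V true X L1 →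
      Der A S T V true (plug C (.n true y .e)) L2 → L1 + L2 ≤ L →
      Der A S T V f (plug C (.n m y X)) L
  | T {f : Bool} {C : Cx} {k : ℕ} {p : MB} {v L L' : ℤ} : T k p v →
      Der A S T V true (plug C (ofMB p)) L' → L' + v ≤ L → Der A S T V f (plug C (.z k)) L
  | M {C : Cx} {x y : Cd} {p : MB} {v L L' : ℤ} : Mt A S T x y p v →
      Der A S T V true (plug C (ofMB p)) L' → L' + v ≤ L + A.o x + A.o y →
      Der A S T V true (plug C (.n (x.isCut || y.isCut) x.lt y.lt)) L

theorem code_inv {A : Aut} {x : Cd} {a : MB} {s : ℤ} (h : Ins A x.lt a s) :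
    ∃ o, Rl A x a o ∧ s = A.o x - o ∧ und x.lt a = a.size := by
  cases x with
  | e => cases h; exact ⟨0, Rl.e, by simp [Aut.o], rfl⟩
  | cut => cases h; exact ⟨-A.kap, Rl.cut, by simp [Aut.o], rfl⟩
  | z k =>
    cases h with
    | @z _ _ o h => exact ⟨o, h, rfl, rfl⟩

theorem Ins.size {A : Aut} {X : LT} {r : MB} {s : ℤ} (h : Ins A X r s) (hX : X ≠ .e) :
    0 < r.size := by
  cases h with
  | e => exact absurd rfl hX
  | z h => exact h.size
  | n _ _ => simp only [MB.size]; omega

theorem und_le {A : Aut} {X : LT} {r : MB} {s : ℤ} (h : Ins A X r s) : und X r ≤ r.size := by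
  induction h with
  | e => simp [und]
  | z h => simp [und]
  | n _ _ ihx ihy => simp only [und, MB.size]; omega

/-- the parts of a cut edge (left child) -/
theorem cut_left {u θ : ℤ} (D : CM) (m : Bool) (a b : MB) {w w' : ℤ}
    (h1 : pg.P u θ {(MB.mk a, .e)} 0 w)
    (h2 : pg.P u θ {(MB.mk (plugM D (.n true .e b)), .e)} 0 w') :
    pg.P u θ {(MB.mk (plugM D (.n m a b)), .e)} 0 (w + w') := by
  have h3 : pg.P u θ {(MB.mk (.n (m || D.isTop) b (ctx D)), .e)} 0 w' := by
    refine P_congr ?_ (PEq.refl _) h2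
    refine (plug_eq D (.n true .e b)).trans ?_
    rw [mkf_n]
    exact (PEq.rho _ _ _ _).trans (PEq.sig _ _)
  have h4 := P_cut h1 h3
  refine P_congr ?_ (PEq.refl _) h4
  refine ((plug_eq D (.n m a b)).trans ?_).symm
  rw [mkf_n]
  exact PEq.rho _ _ _ _

theorem cut_right {u θ : ℤ} (D : CM) (m : Bool) (a b : MB) {w w' : ℤ}
    (h1 : pg.P u θ {(MB.mk a, .e)} 0 w)
    (h2 : pg.P u θ {(MB.mk (plugM D (.n true b .e)), .e)} 0 w') :
    pg.P u θ {(MB.mk (plugM D (.n m b a)), .e)} 0 (w + w') := by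
  have e : ∀ (m : Bool) (a b : MB), PEq {(MB.mk (plugM D (.n m a b)), .e)}
      {(MB.mk (plugM D (.n m b a)), .e)} := by
    intro m a b
    refine (plug_eq D _).trans (PEq.trans ?_ (plug_eq D _).symm)
    rw [mkf_n, mkf_n]
    exact PEq.sw _ _ _ _
  exact P_congr (e m a b) (PEq.refl _) (cut_left D m a b h1 (P_congr (e _ _ _) (PEq.refl _) h2))

theorem Der.sound {A : Aut} {S : LT → ℤ → Prop} {T : ℕ → MB → ℤ → Prop} {V : MB → ℤ → Prop}
    {u θ l : ℤ} (hTOK : TOK A S T)
    (hV : ∀ p L, V p L → pg.P u θ {(MB.mk p, .e)} 0 (l * p.size + L)) (n : ℕ)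
    (hS : ∀ X L, S X L → NB A u θ l n X L) {f : Bool} {X : LT} {L : ℤ} (h : Der A S T V f X L) :
    NB A u θ l n X L ∧ (f = false → NB A u θ l (n + 1) X L) := by
  have key : ∀ {X L f}, NB A u θ l (n + 1) X L → NB A u θ l n X L ∧
      (f = false → NB A u θ l (n + 1) X L) := by
    intro X L f h
    exact ⟨fun r s hr hn => h r s hr (by omega), fun _ => h⟩
  induction h with
  | ref h hX hL => exact ⟨((hS _ _ h).rt'.le hX hL).rt, fun h => by simp at h⟩
  | @tab f X p L L' h hX hL =>
    apply key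
    refine NB.le (L' := L') (fun r s hr _ => ?_) hX hL
    obtain ⟨rfl, rfl⟩ := ofMB_inv hr
    simpa using hV _ _ h
  | @U f C k L _ ih =>
    apply key
    intro r s hr hn
    obtain ⟨D, a, s1, s2, rfl, h1, h2, rfl⟩ := Ins.plug_inv C hr
    rw [h1.und, plugM_size] at hn
    cases h2 with
    | @z _ _ o h3 =>
      cases h3 with
      | @n x y a b s t _ hk hx hy =>
        have h4 := (ih x y hk).1
        have h5 := h1.plug (Ins.n (m := x.isCut || y.isCut) hx.code hy.code)
        have h6 := h4 _ _ h5 (by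
          rw [h1.und, plugM_size]
          simp only [und, hx.und_code, hy.und_code, MB.size] at hn ⊢
          omega)
        refine P_sub h6 (le_of_eq ?_)
        ring
  | @cl f C m X y L L1 L2 hX _ _ hL ih1 ih2 =>
    apply key
    intro r s hr hn
    obtain ⟨D, a, s1, s2, rfl, h1, h2, rfl⟩ := Ins.plug_inv C hr
    rw [h1.und, plugM_size] at hn
    cases h2 with
    | @n _ _ _ a b s t ha hb =>
      have e1 := ha.size hX
      have e2 := und_le ha
      have h3 := ih1.1 _ _ ha (by
        simp only [und, MB.size] at hn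
        omega)
      have h4 := ih2.1 _ _ (h1.plug (Ins.n (m := true) Ins.e hb)) (by
        rw [h1.und, plugM_size]
        simp only [und, MB.size] at hn ⊢
        omega)
      refine P_sub (cut_left D m a b h3 h4) ?_
      rw [plugM_size, plugM_size]
      simp only [MB.size]
      push_cast
      nlinarith
  | @cr f C m X y L L1 L2 hX _ _ hL ih1 ih2 =>
    apply key
    intro r s hr hn
    obtain ⟨D, a, s1, s2, rfl, h1, h2, rfl⟩ := Ins.plug_inv C hr
    rw [h1.und, plugM_size] at hn
    cases h2 with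
    | @n _ _ _ b a t s hb ha =>
      have e1 := ha.size hX
      have e2 := und_le ha
      have h3 := ih1.1 _ _ ha (by
        simp only [und, MB.size] at hn
        omega)
      have h4 := ih2.1 _ _ (h1.plug (Ins.n (m := true) hb Ins.e)) (by
        rw [h1.und, plugM_size]
        simp only [und, MB.size] at hn ⊢
        omega)
      refine P_sub (cut_right D m a b h3 h4) ?_
      rw [plugM_size, plugM_size]
      simp only [MB.size]
      push_cast
      nlinarith
  | @T f C k p v L L' hT _ hL ih =>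
    apply key
    intro r s hr hn
    obtain ⟨D, a, s1, s2, rfl, h1, h2, rfl⟩ := Ins.plug_inv C hr
    rw [h1.und, plugM_size] at hn
    cases h2 with
    | @z _ _ o h3 =>
      have e1 := h3.size
      have e2 := T_size hTOK _ le_rfl h3 hT
      have h4 := ih.1 _ _ (h1.plug (ofMB_ins A p)) (by
        rw [h1.und, plugM_size, ofMB_und]
        simp only [und] at hn
        omega)
      have h5 := P_congr (plug_eq D p) (PEq.refl _) h4
      have h6 := @T_sound A S T u θ l hTOK a.size (fun k w hk a' s ha' hlt => by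
        have := hS _ _ hk _ _ (Ins.z ha') (by
          simp only [und] at hn ⊢
          omega)
        exact this) k a o le_rfl h3 p v hT D.isTop (ctx D) _ h5
      refine P_sub (P_congr (plug_eq D a).symm (PEq.refl _) h6) ?_
      rw [plugM_size, plugM_size]
      push_cast
      nlinarith
  | @M C x y p v L L' hM _ hL ih =>
    refine ⟨?_, fun h => by simp at h⟩
    intro r s hr hn
    obtain ⟨D, a, s1, s2, rfl, h1, h2, rfl⟩ := Ins.plug_inv C hr
    rw [h1.und, plugM_size] at hn
    cases h2 with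
    | @n _ _ _ a b s t ha hb =>
      obtain ⟨o1, g1, rfl, e1⟩ := code_inv ha
      obtain ⟨o2, g2, rfl, e2⟩ := code_inv hb
      have e3 := hM.size g1 g2 (fun k q w h3 h4 => T_size hTOK _ le_rfl (h4 ▸ g1) h3)
        (fun k q w h3 h4 => T_size hTOK _ le_rfl (h4 ▸ g2) h3)
      simp only [und, MB.size, e1, e2] at hn
      have h4 := ih.1 _ _ (h1.plug (ofMB_ins A p)) (by
        rw [h1.und, plugM_size, ofMB_und]
        omega)
      have h5 := P_congr (plug_eq D p) (PEq.refl _) h4
      have hSS : ∀ k w, S (.z k) w → ∀ a' s, Rl A (.z k) a' s → 2 * a'.size < n →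
          pg.P u θ {(MB.mk a', .e)} 0 (l * a'.size + w + (A.off k - s)) := by
        intro k w hk a' s ha' hlt
        exact hS _ _ hk _ _ (Ins.z ha') (by simp only [und]; omega)
      have h6 := hM.sound g1 g2
        (fun k w hk he => hSS k w hk a o1 (he ▸ g1) (by omega))
        (fun k w hk he => hSS k w hk b o2 (he ▸ g2) (by omega))
        (fun k q w hk he c m hc => @T_sound A S T u θ l hTOK a.size
          (fun k w hk a' s ha' hlt => hSS k w hk a' s ha' (by omega)) k a o1 le_rfl (he ▸ g1) q w hk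
          false c m hc)
        (fun k q w hk he c m hc => @T_sound A S T u θ l hTOK b.size
          (fun k w hk a' s ha' hlt => hSS k w hk a' s ha' (by omega)) k b o2 le_rfl (he ▸ g2) q w hk
          false c m hc) D.isTop (ctx D) _ h5
      refine P_sub (P_congr (plug_eq D _).symm (PEq.refl _) h6) ?_
      rw [plugM_size, plugM_size]
      simp only [MB.size]
      push_cast
      nlinarith

/-- the nodes are bounds for all instantiations -/
theorem sound {A : Aut} {S : LT → ℤ → Prop} {T : ℕ → MB → ℤ → Prop} {V : MB → ℤ → Prop}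
    {u θ l : ℤ} (hTOK : TOK A S T)
    (hV : ∀ p L, V p L → pg.P u θ {(MB.mk p, .e)} 0 (l * p.size + L))
    (hS : ∀ X L, S X L → Der A S T V false X L) : ∀ X L, S X L → N A u θ l X L := by
  have h : ∀ n X L, S X L → NB A u θ l n X L := by
    intro n
    induction n with
    | zero => intro X L _ r s _ hn; omega
    | succ n ih => intro X L h; exact ((hS X L h).sound hTOK hV n ih).2 rfl
  intro X L hX r s hr
  exact h _ X L hX r s hr (Nat.lt_succ_self _)

theorem P_nul (u θ : ℤ) : pg.P u θ {((MB.e, MB.e) : K)} 0 0 :=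
  P_congr PEq.nul.symm (PEq.refl _) (Gm.P.of_term Cm.term_zero Cm.term_zero le_rfl)

/-- the relation between a real branch and its code -/
def Red (_A : Aut) (u θ l : ℤ) (b : B) (c : Cd) (r : MB) (s : ℤ) : Prop :=
  ∀ (f : Bool) (d : MB) (m : ℤ), pg.P u θ {(mkf f r, mkf c.isCut d)} 0 m →
    pg.P u θ {(mkf f (emb b), d)} 0 (m + (l * (b.size - r.size) + s))

theorem Red.node {A : Aut} {u θ l : ℤ} {b1 b2 : B} {x y : Cd} {a b : MB} {s t : ℤ}
    (hx : Red A u θ l b1 x a s) (hy : Red A u θ l b2 y b t) (f : Bool) (d : MB) (m : ℤ)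
    (h : pg.P u θ {(mkf f (.n (x.isCut || y.isCut) a b), d)} 0 m) :
    pg.P u θ {(mkf f (emb (.n b1 b2)), d)} 0
      (m + (l * ((B.n b1 b2).size - (MB.n (x.isCut || y.isCut) a b).size) + (s + t))) := by
  rw [mkf_n] at h
  have h2 : pg.P u θ {(b, mkf y.isCut (MB.n (f || x.isCut) a d))} 0 m := by
    rw [mkf_n]
    have e : (x.isCut || y.isCut || f) = (f || x.isCut || y.isCut) := by
      cases f <;> cases x.isCut <;> cases y.isCut <;> rfl
    rw [e] at h
    exact P_congr ((PEq.sw _ _ _ _).trans (PEq.rho _ _ _ _)) (PEq.refl _) h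
  have h3 := hy false _ _ h2
  have h4 : pg.P u θ {(a, mkf x.isCut (MB.n f (emb b2) d))} 0
      (m + (l * (b2.size - b.size) + t)) := by
    rw [mkf_n]
    exact P_congr ((PEq.rho _ _ _ _).symm.trans ((PEq.sw _ _ _ _).trans (PEq.rho _ _ _ _)))
      (PEq.refl _) h3
  have h5 := hx false _ _ h4
  have e1 : mkf f (emb (.n b1 b2)) = MB.n f (emb b1) (emb b2) := by
    rw [emb, mkf_n]; simp
  rw [e1]
  refine P_sub (P_congr (PEq.rho _ _ _ _).symm (PEq.refl _) h5) (le_of_eq ?_)
  simp only [Helper60.Idg.B.size, MB.size]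
  push_cast
  ring

theorem Red.swap {A : Aut} {u θ l : ℤ} {b1 b2 : B} {c : Cd} {r : MB} {s : ℤ}
    (h : Red A u θ l (.n b1 b2) c r s) : Red A u θ l (.n b2 b1) c r s := by
  intro f d m h1
  have h2 := h f d m h1
  have e1 : ∀ b1 b2 : B, mkf f (emb (.n b1 b2)) = MB.n f (emb b1) (emb b2) := by
    intro b1 b2
    rw [emb, mkf_n]; simp
  rw [e1] at h2 ⊢
  refine P_sub (P_congr (PEq.sw _ _ _ _) (PEq.refl _) h2) (le_of_eq ?_)
  simp only [Helper60.Idg.B.size]
  push_cast
  ring

/-- the pair of codes has a state or can be cut -/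
def St (A : Aut) (u θ l : ℤ) (R : Cd → Prop) (x y : Cd) : Prop :=
  (∃ k, A.tr x y = .z k ∧ R (.z k)) ∨
    N A u θ l (.n (x.isCut || y.isCut) x.lt y.lt) (-A.kap - A.o x - A.o y)

theorem St.red {A : Aut} {u θ l : ℤ} {R : Cd → Prop} (hc : R .cut) {b1 b2 : B} {x y : Cd}
    {a b : MB} {s t : ℤ} (h : St A u θ l R x y) (hx' : Rl A x a s) (hy' : Rl A y b t)
    (hx'' : Red A u θ l b1 x a s) (hy'' : Red A u θ l b2 y b t) :
    ∃ c r s, R c ∧ Rl A c r s ∧ Red A u θ l (.n b1 b2) c r s := by
  rcases h with ⟨k, hk, hk'⟩ | hN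
  · exact ⟨.z k, _, _, hk', Rl.n hk hx' hy', fun f d m h => Red.node hx'' hy'' f d m h⟩
  · refine ⟨.cut, .e, -A.kap, hc, Rl.cut, fun f d m h => ?_⟩
    have h1 := hN _ _ (Ins.n (m := x.isCut || y.isCut) hx'.code hy'.code)
    have h2 := Red.node hx'' hy'' true .e _ h1
    have h3 : pg.P u θ {(MB.mk d, .e)} 0 m := by
      rw [mkf_e] at h
      exact P_congr (PEq.sig _ _) (PEq.refl _) h
    have e : MB.mk (mkf f (emb (.n b1 b2))) = mkf true (emb (.n b1 b2)) := by
      rw [mk_mkf]; rfl
    rw [← e] at h2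
    refine P_sub (P_cut h2 h3) (le_of_eq ?_)
    simp only [Helper60.Idg.B.size, MB.size]
    push_cast
    ring

theorem code_all {A : Aut} {u θ l : ℤ} (R : Cd → Prop) (h0 : R .e) (hc : R .cut)
    (hstep : ∀ x y, R x → R y → St A u θ l R x y ∨ St A u θ l R y x) (b : B) :
    ∃ c r s, R c ∧ Rl A c r s ∧ Red A u θ l b c r s := by
  induction b with
  | e =>
    refine ⟨.e, .e, 0, h0, Rl.e, fun f d m h => ?_⟩
    have : ((B.e.size : ℤ) - (MB.e.size : ℤ)) = 0 := by
      simp [Helper60.Idg.B.size, MB.size]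
    rw [this]
    simpa [mkf, Cd.isCut, emb] using h
  | n b1 b2 ih1 ih2 =>
    obtain ⟨x, a, s, hx, hx', hx''⟩ := ih1
    obtain ⟨y, b, t, hy, hy', hy''⟩ := ih2
    rcases hstep x y hx hy with h | h
    · exact h.red hc hx' hy' hx'' hy''
    · obtain ⟨c, r, s, h1, h2, h3⟩ := h.red hc hy' hx' hy'' hx''
      exact ⟨c, r, s, h1, h2, h3.swap⟩

/-- the bound for all trees -/
theorem bound {A : Aut} {u θ l C : ℤ} (R : Cd → Prop) (h0 : R .e) (hc : R .cut)
    (hstep : ∀ x y, R x → R y → St A u θ l R x y ∨ St A u θ l R y x)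
    (hC : ∀ k, R (.z k) → N A u θ l (.z k) (C - A.off k)) (hC0 : 0 ≤ C) (hk : 0 ≤ A.kap) (b : B) :
    pg.P u θ {(emb b, .e)} 0 (l * b.size + C) := by
  obtain ⟨c, r, s, hR, hr, hred⟩ := code_all R h0 hc hstep b
  have hz : ((MB.e.size : ℕ) : ℤ) = 0 := by simp [MB.size]
  cases hr with
  | e =>
    refine P_sub (hred false .e 0 (P_nul u θ)) ?_
    rw [hz]; linarith
  | cut =>
    refine P_sub (hred false .e 0 (P_nul u θ)) ?_
    rw [hz]; linarith
  | @n x y a b' s t k hk' hx hy =>
    have h1 := hC k hR _ _ (Ins.z (Rl.n hk' hx hy))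
    have h2 := hred true .e _ h1
    have h3 : Rx {(emb b, .e)} {(mkf true (emb b), .e)} := by
      cases b with
      | e => exact Rx.refl _
      | n b1 b2 => exact Rx.mark _ _ _
    refine P_sub (P_relax h3 h2) (le_of_eq ?_)
    ring

end Pool.Agent.Helper66.ND
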